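import Mathlib
import Pool.Agent.H33.BDFP.Stmts

attribute [local instance] Pool.Agent.H33.BDFP.NV.instNACG Pool.Agent.H33.BDFP.NV.instModule
  Pool.Agent.H33.BDFP.NV.instNormedSpace Pool.Agent.H33.BDFP.NV.instFD
  Pool.Agent.H33.BDFP.NV.instComplete

/-!
Project BDFP, module MAU: Maurey factorisation for one operator.
-/

open scoped ENNReal NNReal

noncomputable section

namespace Pool.Agent.H80.BDFP

open Pool.Agent.H33.BDFP

variable {p : ℝ≥0∞} [Fact (1 ≤ p)] {r : ℕ → ℕ}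

lemma toReal_pos' (hp : p ≠ ∞) : 0 < p.toReal :=
  ENNReal.toReal_pos (zero_lt_one.trans_le (Fact.out : (1 : ℝ≥0∞) ≤ p)).ne' hp

/-- real sequence as an element of `LP p` -/
def mkLP (p : ℝ≥0∞) (hp0 : 0 < p.toReal) (y : ℕ → ℝ) (hy : Summable (fun n => |y n| ^ p.toReal)) :
    LP p :=
  ⟨fun n => (y n : ℂ), (memℓp_gen_iff hp0).2 (by simpa using hy)⟩

lemma mkLP_norm (hp0 : 0 < p.toReal) (y : ℕ → ℝ) (h0 : ∀ n, 0 ≤ y n)
    (hy : Summable (fun n => |y n| ^ p.toReal)) (n : ℕ) : ‖mkLP p hp0 y hy n‖ = y n := by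
  change ‖(y n : ℂ)‖ = y n
  rw [Complex.norm_real, Real.norm_of_nonneg (h0 n)]

lemma mkLP_rpow (hp0 : 0 < p.toReal) (y : ℕ → ℝ) (h0 : ∀ n, 0 ≤ y n)
    (hy : Summable (fun n => |y n| ^ p.toReal)) :
    ‖mkLP p hp0 y hy‖ ^ p.toReal = ∑' n, y n ^ p.toReal := by
  rw [lp.norm_rpow_eq_tsum hp0]
  refine tsum_congr fun n => ?_
  rw [mkLP_norm hp0 y h0 hy]

/-- the sequence of the norms -/
def nv (p : ℝ≥0∞) (hp0 : 0 < p.toReal) (x : ZP r p) : LP p :=
  mkLP p hp0 (fun n => ‖x n‖) (by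
    have := (lp.memℓp x).summable hp0
    simpa using this)

lemma nv_apply (hp0 : 0 < p.toReal) (x : ZP r p) (n : ℕ) : ‖nv p hp0 x n‖ = ‖x n‖ :=
  mkLP_norm hp0 _ (fun _ => norm_nonneg _) _ n

lemma norm_nv (hp0 : 0 < p.toReal) (x : ZP r p) : ‖nv p hp0 x‖ = ‖x‖ := by
  have h1 : ‖nv p hp0 x‖ ^ p.toReal = ‖x‖ ^ p.toReal := by
    rw [nv, mkLP_rpow hp0 _ (fun _ => norm_nonneg _), lp.norm_rpow_eq_tsum hp0]
  exact (Real.rpow_left_inj (norm_nonneg _) (norm_nonneg _) hp0.ne').1 h1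

lemma adm_Z (hp0 : 0 < p.toReal) {w : ℕ → ℝ} (hw : Adm p w) (x : ZP r p) :
    Summable (fun n => w n * ‖x n‖ ^ 2) ∧ ∑' n, w n * ‖x n‖ ^ 2 ≤ ‖x‖ ^ 2 := by
  have h := hw.2 (nv p hp0 x)
  simp only [nv_apply, norm_nv] at h
  exact h

lemma adm_iff (hp0 : 0 < p.toReal) (w : ℕ → ℝ) : Adm p w ↔ (∀ n, 0 ≤ w n) ∧
    ∀ (x : LP p) (s : Finset ℕ), ∑ n ∈ s, w n * ‖x n‖ ^ 2 ≤ ‖x‖ ^ 2 := by
  constructor
  · rintro ⟨h1, h2⟩
    refine ⟨h1, fun x s => ?_⟩
    refine ((h2 x).1.sum_le_tsum s fun n _ => mul_nonneg (h1 n) (sq_nonneg _)).trans (h2 x).2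
  · rintro ⟨h1, h2⟩
    refine ⟨h1, fun x => ?_⟩
    have h3 : Summable (fun n => w n * ‖x n‖ ^ 2) :=
      summable_of_sum_le (fun n => mul_nonneg (h1 n) (sq_nonneg _)) (h2 x)
    exact ⟨h3, h3.tsum_le_of_sum_le (h2 x)⟩

lemma adm_le_one (hp0 : 0 < p.toReal) {w : ℕ → ℝ} (hw : Adm p w) (n : ℕ) : w n ≤ 1 := by
  have h := ((adm_iff hp0 w).1 hw).2 (lp.single p n (1 : ℂ)) {n}
  have hp00 : 0 < p := by
    by_contra h
    have : p = 0 := by simpa using h
    rw [this] at hp0
    simp at hp0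
  rw [Finset.sum_singleton, lp.single_apply_self, lp.norm_single hp00] at h
  simpa using h

lemma isClosed_adm (hp0 : 0 < p.toReal) : IsClosed {w : ℕ → ℝ | Adm p w} := by
  have h : {w : ℕ → ℝ | Adm p w} = {w : ℕ → ℝ | ∀ n, 0 ≤ w n} ∩
      {w : ℕ → ℝ | ∀ (x : LP p) (s : Finset ℕ), ∑ n ∈ s, w n * ‖x n‖ ^ 2 ≤ ‖x‖ ^ 2} := by
    ext w
    exact adm_iff hp0 w
  rw [h]
  refine IsClosed.inter ?_ ?_
  · simp only [Set.ofPred_forall]
    exact isClosed_iInter fun n => isClosed_le continuous_const (continuous_apply n)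
  · simp only [Set.ofPred_forall]
    refine isClosed_iInter fun x => isClosed_iInter fun s => isClosed_le ?_ continuous_const
    exact continuous_finsetSum _ fun n _ => (continuous_apply n).mul continuous_const

lemma isCompact_adm (hp0 : 0 < p.toReal) : IsCompact {w : ℕ → ℝ | Adm p w} := by
  refine IsCompact.of_isClosed_subset
    (isCompact_univ_pi (fun _ : ℕ => isCompact_Icc (a := (0 : ℝ)) (b := 1)))
    (isClosed_adm hp0) ?_
  intro w hw n _
  exact ⟨hw.1 n, adm_le_one hp0 hw n⟩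

lemma convex_adm (hp0 : 0 < p.toReal) : Convex ℝ {w : ℕ → ℝ | Adm p w} := by
  intro w hw w' hw' a b ha hb hab
  have h1 := (adm_iff hp0 w).1 hw
  have h2 := (adm_iff hp0 w').1 hw'
  refine (adm_iff hp0 _).2 ⟨fun n => ?_, fun x s => ?_⟩
  · exact add_nonneg (mul_nonneg ha (h1.1 n)) (mul_nonneg hb (h2.1 n))
  · calc ∑ n ∈ s, (a • w + b • w') n * ‖x n‖ ^ 2
        = a * ∑ n ∈ s, w n * ‖x n‖ ^ 2 + b * ∑ n ∈ s, w' n * ‖x n‖ ^ 2 := by
          rw [Finset.mul_sum, Finset.mul_sum, ← Finset.sum_add_distrib]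
          refine Finset.sum_congr rfl fun n _ => ?_
          simp only [Pi.add_apply, Pi.smul_apply, smul_eq_mul]
          ring
      _ ≤ a * ‖x‖ ^ 2 + b * ‖x‖ ^ 2 :=
          add_le_add (mul_le_mul_of_nonneg_left (h1.2 x s) ha)
            (mul_le_mul_of_nonneg_left (h2.2 x s) hb)
      _ = ‖x‖ ^ 2 := by rw [← add_mul, hab, one_mul]

/-- continuity of `w ↦ ∑ w n ‖x n‖^2` on the admissible weights -/
lemma continuousOn_wsum (hp0 : 0 < p.toReal) (hp : p ≠ ∞) (x : ZP r p) :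
    ContinuousOn (fun w : ℕ → ℝ => ∑' n, w n * ‖x n‖ ^ 2) {w : ℕ → ℝ | Adm p w} := by
  have hu : TendstoUniformlyOn (fun (s : Finset ℕ) (w : ℕ → ℝ) => ∑ n ∈ s, w n * ‖x n‖ ^ 2)
      (fun w : ℕ → ℝ => ∑' n, w n * ‖x n‖ ^ 2) Filter.atTop {w : ℕ → ℝ | Adm p w} := by
    rw [Metric.tendstoUniformlyOn_iff]
    intro ε hε
    have h1 := lp.hasSum_single hp x
    rw [HasSum, Metric.tendsto_nhds] at h1
    have hδ : 0 < Real.sqrt ε := Real.sqrt_pos.2 hε
    refine (h1 _ hδ).mono ?_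
    intro s hs w hw
    set y : ZP r p := x - ∑ i ∈ s, lp.single p i (x i) with hy
    have hyn : ‖y‖ < Real.sqrt ε := by
      rw [dist_comm, dist_eq_norm] at hs
      exact hs
    have hya : ∀ n, w n * ‖x n‖ ^ 2 = (if n ∈ s then w n * ‖x n‖ ^ 2 else 0) +
        w n * ‖y n‖ ^ 2 := by
      intro n
      have hyn' : y n = x n - if n ∈ s then x n else 0 := by
        rw [hy]
        change x n - (∑ i ∈ s, lp.single p i (x i) : ZP r p) n = _
        rw [lp.coeFn_sum, Finset.sum_apply]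
        congr 1
        by_cases hn : n ∈ s
        · rw [if_pos hn, Finset.sum_eq_single n]
          · rw [lp.single_apply_self]
          · intro i _ hi
            rw [lp.single_apply_ne _ _ _ hi.symm]
          · intro h
            exact absurd hn h
        · rw [if_neg hn, Finset.sum_eq_zero]
          intro i hi
          rw [lp.single_apply_ne]
          rintro rfl
          exact hn hi
      rw [hyn']
      by_cases hn : n ∈ s
      · simp [hn]
      · simp [hn]
    have h2 := adm_Z hp0 hw x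
    have h3 := adm_Z hp0 hw y
    have h4 : ∑' n, w n * ‖x n‖ ^ 2 = ∑ n ∈ s, w n * ‖x n‖ ^ 2 + ∑' n, w n * ‖y n‖ ^ 2 := by
      rw [tsum_congr hya, Summable.tsum_add _ h3.1]
      · rw [tsum_eq_sum (s := s) (fun n hn => if_neg hn)]
        congr 1
        exact Finset.sum_congr rfl fun n hn => if_pos hn
      · exact summable_of_ne_finset_zero (s := s) (fun n hn => if_neg hn)
    rw [dist_eq_norm, h4, add_sub_cancel_left, Real.norm_of_nonneg
      (tsum_nonneg fun n => mul_nonneg (hw.1 n) (sq_nonneg _))]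
    refine h3.2.trans_lt ?_
    calc ‖y‖ ^ 2 < Real.sqrt ε ^ 2 := pow_lt_pow_left₀ hyn (norm_nonneg _) two_ne_zero
      _ = ε := Real.sq_sqrt hε.le
  refine hu.continuousOn (Filter.Frequently.of_forall fun s => ?_)
  exact (continuous_finsetSum _ fun n _ => (continuous_apply n).mul continuous_const).continuousOn

/-- a norming weight -/
lemma norming (hp0 : 0 < p.toReal) (h2 : 2 < p.toReal) (h : ℕ → ℝ) (h0 : ∀ n, 0 ≤ h n)
    (hs : Summable (fun n => h n ^ p.toReal)) : ∃ w : ℕ → ℝ, Adm p w ∧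
      Summable (fun n => w n * h n ^ 2) ∧
      ∑' n, w n * h n ^ 2 = (∑' n, h n ^ p.toReal) ^ (2 / p.toReal) := by
  set P := p.toReal with hP
  set H := ∑' n, h n ^ P with hH
  have hH0 : 0 ≤ H := tsum_nonneg fun n => Real.rpow_nonneg (h0 n) _
  rcases hH0.eq_or_lt with hz | hpos
  · refine ⟨fun _ => 0, ⟨fun _ => le_rfl, fun x => ?_⟩, ?_, ?_⟩
    · simp [summable_zero]
    · simp [summable_zero]
    · rw [← hz, Real.zero_rpow (by positivity)]
      simp
  · have hHd : 0 < H ^ ((P - 2) / P) := Real.rpow_pos_of_pos hpos _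
    have hw : ∀ n, h n ^ (P - 2) / H ^ ((P - 2) / P) * h n ^ 2 =
        h n ^ P / H ^ ((P - 2) / P) := by
      intro n
      rw [div_mul_eq_mul_div]
      congr 1
      rw [← Real.rpow_two, ← Real.rpow_add' (h0 n) (by ring_nf; positivity)]
      congr 1
      ring
    refine ⟨fun n => h n ^ (P - 2) / H ^ ((P - 2) / P), ⟨fun n => ?_, fun x => ?_⟩, ?_, ?_⟩
    · exact div_nonneg (Real.rpow_nonneg (h0 n) _) hHd.le
    · have hconj : (P / (P - 2)).HolderConjugate (P / 2) := by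
        rw [Real.holderConjugate_iff]
        refine ⟨?_, ?_⟩
        · rw [lt_div_iff₀ (by linarith)]
          linarith
        · rw [inv_div, inv_div]
          field_simp
          ring
      have hf1 : ∀ n, (h n ^ (P - 2) / H ^ ((P - 2) / P)) ^ (P / (P - 2)) = h n ^ P / H := by
        intro n
        rw [Real.div_rpow (Real.rpow_nonneg (h0 n) _) hHd.le, ← Real.rpow_mul (h0 n),
          ← Real.rpow_mul hpos.le]
        have e1 : (P - 2) * (P / (P - 2)) = P := by
          have : P - 2 ≠ 0 := by linarith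
          field_simp
        have e2 : (P - 2) / P * (P / (P - 2)) = 1 := by
          have : P - 2 ≠ 0 := by linarith
          field_simp
        rw [e1, e2, Real.rpow_one]
      have hg1 : ∀ n, (‖x n‖ ^ 2) ^ (P / 2) = ‖x n‖ ^ P := by
        intro n
        rw [← Real.rpow_two, ← Real.rpow_mul (norm_nonneg _)]
        congr 1
        ring
      have hol := Real.summable_and_inner_le_Lp_mul_Lq_tsum_of_nonneg hconj
        (f := fun n => h n ^ (P - 2) / H ^ ((P - 2) / P)) (g := fun n => ‖x n‖ ^ 2)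
        (fun n => div_nonneg (Real.rpow_nonneg (h0 n) _) hHd.le) (fun n => sq_nonneg _)
        (by
          simp only [hf1]
          exact hs.div_const H)
        (by
          simp only [hg1]
          exact (lp.memℓp x).summable hp0)
      refine ⟨hol.1, hol.2.trans (le_of_eq ?_)⟩
      simp only [hf1, hg1]
      rw [tsum_div_const, ← hH, div_self hpos.ne', Real.one_rpow, one_mul,
        ← lp.norm_rpow_eq_tsum hp0 x, ← Real.rpow_mul (norm_nonneg _)]
      have e3 : P * (1 / (P / 2)) = 2 := by field_simp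
      rw [e3, Real.rpow_two]
    · simp only [hw]
      exact hs.div_const _
    · simp only [hw]
      rw [tsum_div_const, ← hH, div_eq_iff hHd.ne', ← Real.rpow_add hpos]
      have e4 : 2 / P + (P - 2) / P = 1 := by field_simp; ring
      rw [e4, Real.rpow_one]

lemma signAvg_mono {ι : Type} [Fintype ι] [DecidableEq ι] {f g : (ι → Bool) → ℝ}
    (h : ∀ ε, f ε ≤ g ε) : signAvg f ≤ signAvg g := by
  unfold signAvg
  gcongr
  exact h _

lemma signAvg_mul {ι : Type} [Fintype ι] [DecidableEq ι] (c : ℝ) (f : (ι → Bool) → ℝ) :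
    signAvg (fun ε => c * f ε) = c * signAvg f := by
  unfold signAvg
  rw [← Finset.mul_sum, mul_div_assoc]

lemma hasSum_signAvg (hp0 : 0 < p.toReal) {ι : Type} [Fintype ι] [DecidableEq ι]
    (z : (ι → Bool) → ZP r p) :
    HasSum (fun n => signAvg (fun ε => ‖z ε n‖ ^ p.toReal))
      (signAvg (fun ε => ‖z ε‖ ^ p.toReal)) := by
  unfold signAvg
  refine HasSum.div_const ?_ _
  exact hasSum_sum fun ε _ => lp.hasSum_norm hp0 (z ε)

/-- the square function -/
def sqf {ι : Type} [Fintype ι] (c : ι → ZP r p) (n : ℕ) : ℝ := ∑ l, ‖c l n‖ ^ 2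

lemma sqf_nonneg {ι : Type} [Fintype ι] (c : ι → ZP r p) (n : ℕ) : 0 ≤ sqf c n :=
  Finset.sum_nonneg fun _ _ => sq_nonneg _

/-- `y ε = ∑ l, sgn (ε l) • c l` -/
def ysum {ι : Type} [Fintype ι] (c : ι → ZP r p) (ε : ι → Bool) : ZP r p :=
  ∑ l, sgn (ε l) • c l

lemma ysum_apply {ι : Type} [Fintype ι] (c : ι → ZP r p) (ε : ι → Bool) (n : ℕ) :
    ysum c ε n = ∑ l, sgn (ε l) • c l n := by
  unfold ysum
  rw [lp.coeFn_sum, Finset.sum_apply]
  rfl

lemma map_ysum {ι : Type} [Fintype ι] (A : ZP r p →L[ℂ] ZP r p) (c : ι → ZP r p)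
    (ε : ι → Bool) : A (ysum c ε) = ysum (fun l => A (c l)) ε := by
  unfold ysum
  rw [map_sum]
  refine Finset.sum_congr rfl fun l _ => ?_
  rw [map_smul]

theorem mau (hK : KhStmt) : MauStmt := by
  intro p _ h2p hp
  have hp0 : 0 < p.toReal := toReal_pos' hp
  have h2 : 2 < p.toReal := by
    have := (ENNReal.toReal_lt_toReal (by simp) hp).2 h2p
    simpa using this
  set P := p.toReal with hP
  obtain ⟨B, hB1, hKB⟩ := hK.1 P h2.le
  refine ⟨B, hB1, ?_⟩
  intro r A w hw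
  have hB0 : 0 ≤ B := zero_le_one.trans hB1
  -- square functions are summable
  have hlow : ∀ {ι : Type} [Fintype ι] [DecidableEq ι] (c : ι → ZP r p) (n : ℕ),
      sqf c n ^ (P / 2) ≤ signAvg (fun ε => ‖ysum c ε n‖ ^ P) := by
    intro ι _ _ c n
    have := (hKB (EuclideanSpace ℂ (Fin (r n))) ι (fun l => c l n)).2
    simp only [ysum_apply]
    exact this
  have hup : ∀ {ι : Type} [Fintype ι] [DecidableEq ι] (c : ι → ZP r p) (n : ℕ),
      signAvg (fun ε => ‖ysum c ε n‖ ^ P) ≤ B ^ P * sqf c n ^ (P / 2) := by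
    intro ι _ _ c n
    have := (hKB (EuclideanSpace ℂ (Fin (r n))) ι (fun l => c l n)).1
    simp only [ysum_apply]
    exact this
  have hsum : ∀ {ι : Type} [Fintype ι] [DecidableEq ι] (c : ι → ZP r p),
      Summable (fun n => sqf c n ^ (P / 2)) := by
    intro ι _ _ c
    exact Summable.of_nonneg_of_le (fun n => Real.rpow_nonneg (sqf_nonneg c n) _) (hlow c)
      (hasSum_signAvg hp0 (ysum c)).summable
  have hle1 : ∀ {ι : Type} [Fintype ι] [DecidableEq ι] (c : ι → ZP r p),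
      ∑' n, sqf c n ^ (P / 2) ≤ signAvg (fun ε => ‖ysum c ε‖ ^ P) := by
    intro ι _ _ c
    rw [← (hasSum_signAvg hp0 (ysum c)).tsum_eq]
    exact (hsum c).tsum_le_tsum (hlow c) (hasSum_signAvg hp0 (ysum c)).summable
  have hle2 : ∀ {ι : Type} [Fintype ι] [DecidableEq ι] (c : ι → ZP r p),
      signAvg (fun ε => ‖ysum c ε‖ ^ P) ≤ B ^ P * ∑' n, sqf c n ^ (P / 2) := by
    intro ι _ _ c
    rw [← (hasSum_signAvg hp0 (ysum c)).tsum_eq, ← tsum_mul_left]
    exact (hasSum_signAvg hp0 (ysum c)).summable.tsum_le_tsum (hup c) ((hsum c).mul_left _)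
  -- the main estimate
  have hroot : ∀ {ι : Type} [Fintype ι] (c : ι → ZP r p) (n : ℕ),
      Real.sqrt (sqf c n) ^ P = sqf c n ^ (P / 2) := by
    intro ι _ c n
    rw [Real.sqrt_eq_rpow, ← Real.rpow_mul (sqf_nonneg c n)]
    congr 1
    ring
  have hmain : ∀ {ι : Type} [Fintype ι] [DecidableEq ι] (c : ι → ZP r p),
      ∑ l, ∑' n, w n * ‖A (c l) n‖ ^ 2 ≤
        (B * ‖A‖) ^ 2 * (∑' n, sqf c n ^ (P / 2)) ^ (2 / P) := by
    intro ι _ _ c
    have hS2 : 0 ≤ ∑' n, sqf c n ^ (P / 2) :=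
      tsum_nonneg fun n => Real.rpow_nonneg (sqf_nonneg c n) _
    set d : ι → ZP r p := fun l => A (c l) with hd
    have hyA : signAvg (fun ε => ‖ysum d ε‖ ^ P) ≤
        ‖A‖ ^ P * signAvg (fun ε => ‖ysum c ε‖ ^ P) := by
      rw [← signAvg_mul]
      refine signAvg_mono fun ε => ?_
      rw [hd, ← map_ysum, ← Real.mul_rpow (norm_nonneg _) (norm_nonneg _)]
      exact Real.rpow_le_rpow (norm_nonneg _) (A.le_opNorm _) hp0.le
    have hS : ∑' n, sqf d n ^ (P / 2) ≤ (B * ‖A‖) ^ P * ∑' n, sqf c n ^ (P / 2) := by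
      calc ∑' n, sqf d n ^ (P / 2) ≤ signAvg (fun ε => ‖ysum d ε‖ ^ P) := hle1 d
        _ ≤ ‖A‖ ^ P * signAvg (fun ε => ‖ysum c ε‖ ^ P) := hyA
        _ ≤ ‖A‖ ^ P * (B ^ P * ∑' n, sqf c n ^ (P / 2)) :=
            mul_le_mul_of_nonneg_left (hle2 c) (Real.rpow_nonneg (norm_nonneg _) _)
        _ = (B * ‖A‖) ^ P * ∑' n, sqf c n ^ (P / 2) := by
            rw [Real.mul_rpow hB0 (norm_nonneg _)]; ring
    -- apply admissibility to the square function of d
    have hgs : Summable (fun n => |Real.sqrt (sqf d n)| ^ P) := by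
      refine (hsum d).congr fun n => ?_
      rw [abs_of_nonneg (Real.sqrt_nonneg _), hroot]
    have hadm := hw.2 (mkLP p hp0 (fun n => Real.sqrt (sqf d n)) hgs)
    have hn2 : ‖mkLP p hp0 (fun n => Real.sqrt (sqf d n)) hgs‖ ^ 2 =
        (∑' n, sqf d n ^ (P / 2)) ^ (2 / P) := by
      have h3 := mkLP_rpow hp0 (fun n => Real.sqrt (sqf d n)) (fun n => Real.sqrt_nonneg _) hgs
      simp only [← hP, hroot] at h3
      rw [← h3, ← Real.rpow_mul (norm_nonneg _)]
      have e3 : P * (2 / P) = 2 := by field_simp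
      rw [e3, Real.rpow_two]
    have hleft : ∑ l, ∑' n, w n * ‖A (c l) n‖ ^ 2 =
        ∑' n, w n * ‖mkLP p hp0 (fun n => Real.sqrt (sqf d n)) hgs n‖ ^ 2 := by
      rw [← Summable.tsum_finsetSum (fun l _ => (adm_Z hp0 hw (A (c l))).1)]
      refine tsum_congr fun n => ?_
      rw [mkLP_norm hp0 _ (fun n => Real.sqrt_nonneg _), Real.sq_sqrt (sqf_nonneg d n), sqf,
        Finset.mul_sum]
    rw [hleft]
    refine hadm.2.trans ?_
    rw [hn2]
    calc (∑' n, sqf d n ^ (P / 2)) ^ (2 / P)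
        ≤ ((B * ‖A‖) ^ P * ∑' n, sqf c n ^ (P / 2)) ^ (2 / P) := by
          refine Real.rpow_le_rpow (tsum_nonneg fun n => Real.rpow_nonneg (sqf_nonneg d n) _)
            hS (by positivity)
      _ = (B * ‖A‖) ^ 2 * (∑' n, sqf c n ^ (P / 2)) ^ (2 / P) := by
          have hBA : 0 ≤ B * ‖A‖ := by positivity
          rw [Real.mul_rpow (Real.rpow_nonneg hBA _) hS2, ← Real.rpow_mul hBA]
          have e3 : P * (2 / P) = 2 := by field_simp
          rw [e3, Real.rpow_two]
  -- each finite family has a good weight, in the averaged sense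
  have havg : ∀ {ι : Type} [Fintype ι] [DecidableEq ι] (c : ι → ZP r p), ∃ w' : ℕ → ℝ,
      Adm p w' ∧ ∑ l, ∑' n, w n * ‖A (c l) n‖ ^ 2 ≤
        (B * ‖A‖) ^ 2 * ∑ l, ∑' n, w' n * ‖c l n‖ ^ 2 := by
    intro ι _ _ c
    obtain ⟨w', hw', hs', he'⟩ := norming (p := p) hp0 h2 (fun n => Real.sqrt (sqf c n))
      (fun n => Real.sqrt_nonneg _) (by
        simp only [← hP, hroot]
        exact hsum c)
    refine ⟨w', hw', (hmain c).trans (le_of_eq ?_)⟩
    simp only [← hP, hroot] at he'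
    rw [← he', ← Summable.tsum_finsetSum (fun l _ => (adm_Z hp0 hw' (c l)).1)]
    congr 1
    refine tsum_congr fun n => ?_
    rw [Real.sq_sqrt (sqf_nonneg c n), sqf, Finset.mul_sum]
  -- compactness
  set a : ZP r p → ℝ := fun x => ∑' n, w n * ‖A x n‖ ^ 2 with ha
  set W : Set (ℕ → ℝ) := {w : ℕ → ℝ | Adm p w} with hW
  set F : ZP r p → (ℕ → ℝ) → ℝ := fun x w' => (B * ‖A‖) ^ 2 * ∑' n, w' n * ‖x n‖ ^ 2 - a x
    with hF
  have hFc : ∀ x, ContinuousOn (F x) W := fun x =>
    ((continuousOn_wsum hp0 hp x).const_mul _).sub continuousOn_const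
  have hFconv : ∀ x, ∀ w₁ ∈ W, ∀ w₂ ∈ W, ∀ s t : ℝ, s + t = 1 →
      F x (s • w₁ + t • w₂) = s * F x w₁ + t * F x w₂ := by
    intro x w₁ h₁ w₂ h₂ s t hst
    have e1 : ∑' n, (s • w₁ + t • w₂) n * ‖x n‖ ^ 2 =
        s * ∑' n, w₁ n * ‖x n‖ ^ 2 + t * ∑' n, w₂ n * ‖x n‖ ^ 2 := by
      rw [← tsum_mul_left, ← tsum_mul_left, ← Summable.tsum_add
        ((adm_Z hp0 h₁ x).1.mul_left s) ((adm_Z hp0 h₂ x).1.mul_left t)]
      refine tsum_congr fun n => ?_
      simp only [Pi.add_apply, Pi.smul_apply, smul_eq_mul]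
      ring
    simp only [hF]
    rw [e1]
    have e2 : a x = (s + t) * a x := by rw [hst, one_mul]
    linear_combination (-1 : ℝ) * e2
  have hfin := (isCompact_adm (p := p) hp0).inter_iInter_nonempty
    (fun x : ZP r p => W ∩ F x ⁻¹' Set.Ici 0)
    (fun x => (hFc x).preimage_isClosed_of_isClosed (isClosed_adm hp0) isClosed_Ici)
    (by
      intro u
      -- the image in R^u
      set Φ : (ℕ → ℝ) → (u → ℝ) := fun w' x => F x.1 w' with hΦ
      have hΦc : ContinuousOn Φ W := continuousOn_pi.2 fun x => hFc x.1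
      have hcomp : IsCompact (Φ '' W) := (isCompact_adm hp0).image_of_continuousOn hΦc
      have hconv : Convex ℝ (Φ '' W) := by
        rintro _ ⟨w₁, h₁, rfl⟩ _ ⟨w₂, h₂, rfl⟩ s t hs ht hst
        refine ⟨s • w₁ + t • w₂, convex_adm hp0 h₁ h₂ hs ht hst, ?_⟩
        funext x
        exact hFconv x.1 w₁ h₁ w₂ h₂ s t hst
      set O : Set (u → ℝ) := {y | ∀ x, 0 ≤ y x} with hO
      have hOconv : Convex ℝ O := by
        intro y hy z hz s t hs ht _ x
        exact add_nonneg (mul_nonneg hs (hy x)) (mul_nonneg ht (hz x))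
      have hOcl : IsClosed O := by
        simp only [hO, Set.ofPred_forall]
        exact isClosed_iInter fun n => isClosed_le continuous_const (continuous_apply n)
      by_cases hdisj : Disjoint (Φ '' W) O
      · exfalso
        obtain ⟨f, s, t, hs, hst, ht⟩ :=
          geometric_hahn_banach_compact_closed hconv hcomp hOconv hOcl hdisj
        have ht0 : t < 0 := by
          have := ht 0 (fun _ => le_rfl)
          simpa using this
        have hfpos : ∀ y ∈ O, 0 ≤ f y := by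
          intro y hy
          by_contra hneg
          push Not at hneg
          have h5 := ht ((t / f y) • y) (fun x => mul_nonneg
            (div_nonneg_of_nonpos ht0.le hneg.le) (hy x))
          rw [map_smul, smul_eq_mul, div_mul_cancel₀ _ hneg.ne] at h5
          exact lt_irrefl _ h5
        classical
        set lam : u → ℝ := fun x => f (Pi.single x 1) with hlam
        have hlam0 : ∀ x, 0 ≤ lam x := fun x => hfpos _ (fun y => by
          by_cases hxy : y = x
          · subst hxy; simp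
          · simp [hxy])
        have hfsum : ∀ y : u → ℝ, f y = ∑ x, y x * lam x := by
          intro y
          have hy : y = ∑ x, y x • (Pi.single x (1 : ℝ) : u → ℝ) := by
            funext z
            rw [Finset.sum_apply, Finset.sum_eq_single z]
            · simp
            · intro b _ hb
              simp [hb.symm]
            · simp
          conv_lhs => rw [hy]
          rw [map_sum]
          refine Finset.sum_congr rfl fun x _ => ?_
          rw [map_smul, smul_eq_mul]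
        obtain ⟨w', hw', hle⟩ := havg (fun x : u => ((Real.sqrt (lam x) : ℝ) : ℂ) • x.1)
        have h6 := hs (Φ w') ⟨w', hw', rfl⟩
        have hsq : ∀ (x : u) (z : ZP r p) (n : ℕ),
            ‖(((Real.sqrt (lam x) : ℝ) : ℂ) • z) n‖ ^ 2 = lam x * ‖z n‖ ^ 2 := by
          intro x z n
          change ‖((Real.sqrt (lam x) : ℝ) : ℂ) • z n‖ ^ 2 = _
          rw [norm_smul, mul_pow, Complex.norm_real,
            Real.norm_of_nonneg (Real.sqrt_nonneg _), Real.sq_sqrt (hlam0 x)]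
        have hle1' : ∑ x : u, ∑' n, w n * ‖A (((Real.sqrt (lam x) : ℝ) : ℂ) • x.1) n‖ ^ 2 =
            ∑ x : u, lam x * a x.1 := by
          refine Finset.sum_congr rfl fun x _ => ?_
          rw [map_smul, ha]
          change _ = lam x * ∑' n, w n * ‖A x.1 n‖ ^ 2
          rw [← tsum_mul_left]
          refine tsum_congr fun n => ?_
          rw [hsq]
          ring
        have hle2' : ∑ x : u, ∑' n, w' n * ‖(((Real.sqrt (lam x) : ℝ) : ℂ) • x.1 : ZP r p) n‖ ^ 2
            = ∑ x : u, lam x * ∑' n, w' n * ‖x.1 n‖ ^ 2 := by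
          refine Finset.sum_congr rfl fun x _ => ?_
          rw [← tsum_mul_left]
          refine tsum_congr fun n => ?_
          rw [hsq]
          ring
        rw [hle1', hle2', Finset.mul_sum] at hle
        have h7 : 0 ≤ f (Φ w') := by
          rw [hfsum]
          have h8 : ∑ x : u, Φ w' x * lam x =
              ∑ x : u, (B * ‖A‖) ^ 2 * (lam x * ∑' n, w' n * ‖x.1 n‖ ^ 2) -
                ∑ x : u, lam x * a x.1 := by
            rw [← Finset.sum_sub_distrib]
            refine Finset.sum_congr rfl fun x _ => ?_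
            simp only [hΦ, hF]
            ring
          rw [h8]
          linarith
        linarith
      · rw [Set.not_disjoint_iff] at hdisj
        obtain ⟨_, ⟨w', hw', rfl⟩, hO'⟩ := hdisj
        refine ⟨w', hw', ?_⟩
        simp only [Set.mem_iInter]
        intro x hx
        exact ⟨hw', hO' ⟨x, hx⟩⟩)
  obtain ⟨w', hw', hall⟩ := hfin
  refine ⟨w', hw', fun x => ?_⟩
  have h9 := (Set.mem_iInter.1 hall x).2
  have h10 : 0 ≤ (B * ‖A‖) ^ 2 * ∑' n, w' n * ‖x n‖ ^ 2 - ∑' n, w n * ‖A x n‖ ^ 2 := h9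
  linarith

end Pool.Agent.H80.BDFP
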