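import Mathlib
import Pool.Agent.H33.BDFP.Stmts
import Pool.Agent.H80.BDFP.MAU

attribute [local instance] Pool.Agent.H33.BDFP.NV.instNACG Pool.Agent.H33.BDFP.NV.instModule
  Pool.Agent.H33.BDFP.NV.instNormedSpace Pool.Agent.H33.BDFP.NV.instFD
  Pool.Agent.H33.BDFP.NV.instComplete

/-!
Project BDFP, module WT: simultaneous boundedness and compactness on a weighted Hilbert space.
-/

open scoped ENNReal NNReal

noncomputable section

namespace Pool.Agent.H80.BDFP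

open Pool.Agent.H33.BDFP

variable {p : ℝ≥0∞} [Fact (1 ≤ p)] {r : ℕ → ℕ}

/-- countable convex combination with the weights `2^(-k-1)` -/
def comb (W : ℕ → ℕ → ℝ) (n : ℕ) : ℝ := ∑' k, (1 / 2 : ℝ) ^ (k + 1) * W k n

lemma hasSum_half : HasSum (fun k : ℕ => (1 / 2 : ℝ) ^ (k + 1)) 1 := by
  have := hasSum_geometric_two' 1
  refine this.congr_fun (fun k => ?_) |> id
  rw [pow_succ, one_div, inv_pow]
  ring

lemma summable_comb (hp0 : 0 < p.toReal) {W : ℕ → ℕ → ℝ} (hW : ∀ k, Adm p (W k)) (n : ℕ) :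
    Summable (fun k => (1 / 2 : ℝ) ^ (k + 1) * W k n) := by
  refine Summable.of_nonneg_of_le (fun k => mul_nonneg (by positivity) ((hW k).1 n))
    (fun k => ?_) hasSum_half.summable
  calc (1 / 2 : ℝ) ^ (k + 1) * W k n ≤ (1 / 2 : ℝ) ^ (k + 1) * 1 :=
        mul_le_mul_of_nonneg_left (adm_le_one hp0 (hW k) n) (by positivity)
    _ = (1 / 2 : ℝ) ^ (k + 1) := mul_one _

lemma le_comb (hp0 : 0 < p.toReal) {W : ℕ → ℕ → ℝ} (hW : ∀ k, Adm p (W k)) (k n : ℕ) :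
    (1 / 2 : ℝ) ^ (k + 1) * W k n ≤ comb W n :=
  (summable_comb hp0 hW n).le_tsum k (fun _ _ => mul_nonneg (by positivity) ((hW _).1 n))

lemma adm_comb (hp0 : 0 < p.toReal) {W : ℕ → ℕ → ℝ} (hW : ∀ k, Adm p (W k)) :
    Adm p (comb W) := by
  refine (adm_iff hp0 _).2 ⟨fun n => tsum_nonneg fun k =>
    mul_nonneg (by positivity) ((hW k).1 n), fun x s => ?_⟩
  have h1 : ∀ n ∈ s, Summable (fun k => (1 / 2 : ℝ) ^ (k + 1) * W k n * ‖x n‖ ^ 2) :=
    fun n _ => (summable_comb hp0 hW n).mul_right _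
  calc ∑ n ∈ s, comb W n * ‖x n‖ ^ 2
      = ∑ n ∈ s, ∑' k, (1 / 2 : ℝ) ^ (k + 1) * W k n * ‖x n‖ ^ 2 := by
        refine Finset.sum_congr rfl fun n _ => ?_
        rw [comb, tsum_mul_right]
    _ = ∑' k, ∑ n ∈ s, (1 / 2 : ℝ) ^ (k + 1) * W k n * ‖x n‖ ^ 2 :=
        (Summable.tsum_finsetSum h1).symm
    _ ≤ ∑' k, (1 / 2 : ℝ) ^ (k + 1) * ‖x‖ ^ 2 := by
        refine Summable.tsum_le_tsum (fun k => ?_) (summable_sum h1)
          (hasSum_half.summable.mul_right _)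
        have h2 := ((adm_iff hp0 _).1 (hW k)).2 x s
        calc ∑ n ∈ s, (1 / 2 : ℝ) ^ (k + 1) * W k n * ‖x n‖ ^ 2
            = (1 / 2 : ℝ) ^ (k + 1) * ∑ n ∈ s, W k n * ‖x n‖ ^ 2 := by
              rw [Finset.mul_sum]
              exact Finset.sum_congr rfl fun n _ => by ring
          _ ≤ _ := mul_le_mul_of_nonneg_left h2 (by positivity)
    _ = ‖x‖ ^ 2 := by rw [tsum_mul_right, hasSum_half.tsum_eq, one_mul]

/-- exchange of the sums -/
lemma comb_sum (hp0 : 0 < p.toReal) {W : ℕ → ℕ → ℝ} (hW : ∀ k, Adm p (W k)) (x : ZP r p) :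
    Summable (fun k => (1 / 2 : ℝ) ^ (k + 1) * ∑' n, W k n * ‖x n‖ ^ 2) ∧
    ∑' n, comb W n * ‖x n‖ ^ 2 = ∑' k, (1 / 2 : ℝ) ^ (k + 1) * ∑' n, W k n * ‖x n‖ ^ 2 := by
  have hnn : ∀ k n, 0 ≤ (1 / 2 : ℝ) ^ (k + 1) * (W k n * ‖x n‖ ^ 2) := fun k n =>
    mul_nonneg (by positivity) (mul_nonneg ((hW k).1 n) (sq_nonneg _))
  have h1 : ∀ k, Summable (fun n => (1 / 2 : ℝ) ^ (k + 1) * (W k n * ‖x n‖ ^ 2)) := fun k =>
    (adm_Z hp0 (hW k) x).1.mul_left _
  have h2 : Summable (fun k => ∑' n, (1 / 2 : ℝ) ^ (k + 1) * (W k n * ‖x n‖ ^ 2)) := by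
    refine Summable.of_nonneg_of_le (fun k => tsum_nonneg (hnn k)) (fun k => ?_)
      (hasSum_half.summable.mul_right (‖x‖ ^ 2))
    rw [tsum_mul_left]
    exact mul_le_mul_of_nonneg_left (adm_Z hp0 (hW k) x).2 (by positivity)
  have h3 : Summable (fun q : ℕ × ℕ => (1 / 2 : ℝ) ^ (q.1 + 1) * (W q.1 q.2 * ‖x q.2‖ ^ 2)) :=
    (summable_prod_of_nonneg (fun q => hnn q.1 q.2)).2 ⟨h1, h2⟩
  refine ⟨?_, ?_⟩
  · refine h2.congr fun k => ?_
    rw [tsum_mul_left]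
  · calc ∑' n, comb W n * ‖x n‖ ^ 2
        = ∑' n, ∑' k, (1 / 2 : ℝ) ^ (k + 1) * (W k n * ‖x n‖ ^ 2) := by
          refine tsum_congr fun n => ?_
          rw [comb, ← tsum_mul_right]
          exact tsum_congr fun k => by ring
      _ = ∑' k, ∑' n, (1 / 2 : ℝ) ^ (k + 1) * (W k n * ‖x n‖ ^ 2) := by
          exact (Summable.tsum_comm (f := fun k n => (1 / 2 : ℝ) ^ (k + 1) * (W k n * ‖x n‖ ^ 2))
            h3)
      _ = _ := tsum_congr fun k => tsum_mul_left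

/-- one weight for a countable family of operators -/
lemma exists_weight (hM : MauStmt) (h2 : 2 < p) (hp : p ≠ ∞) : ∃ B : ℝ, 1 ≤ B ∧
    ∀ (r : ℕ → ℕ) (A : ℕ → (ZP r p →L[ℂ] ZP r p)), ∃ w : ℕ → ℝ, Adm p w ∧ (∀ n, 0 < w n) ∧
      ∀ k x, ∑' n, w n * ‖A k x n‖ ^ 2 ≤
        2 ^ (k + 2) * (B * ‖A k‖) ^ 2 * ∑' n, w n * ‖x n‖ ^ 2 := by
  have hp0 : 0 < p.toReal := toReal_pos' hp
  obtain ⟨B, hB1, hB⟩ := hM p h2 hp
  refine ⟨B, hB1, fun r A => ?_⟩
  -- choose the weights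
  have hch : ∀ (k : ℕ) (w : {w : ℕ → ℝ // Adm p w}), ∃ w' : {w : ℕ → ℝ // Adm p w},
      ∀ x : ZP r p, ∑' n, w.1 n * ‖A k x n‖ ^ 2 ≤ (B * ‖A k‖) ^ 2 * ∑' n, w'.1 n * ‖x n‖ ^ 2 := by
    intro k w
    obtain ⟨w', hw', h⟩ := hB r (A k) w.1 w.2
    exact ⟨⟨w', hw'⟩, h⟩
  choose g hg using hch
  have hw0 : Adm p (fun n : ℕ => (1 / 2 : ℝ) ^ (n + 1)) := by
    refine ⟨fun n => by positivity, fun x => ?_⟩
    have hle : ∀ n, (1 / 2 : ℝ) ^ (n + 1) * ‖x n‖ ^ 2 ≤ (1 / 2 : ℝ) ^ (n + 1) * ‖x‖ ^ 2 := by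
      intro n
      have hne : p ≠ 0 := (zero_lt_one.trans_le (Fact.out : (1 : ℝ≥0∞) ≤ p)).ne'
      exact mul_le_mul_of_nonneg_left
        (pow_le_pow_left₀ (norm_nonneg _) (lp.norm_apply_le_norm hne x n) 2) (by positivity)
    have hs : Summable (fun n : ℕ => (1 / 2 : ℝ) ^ (n + 1) * ‖x n‖ ^ 2) :=
      Summable.of_nonneg_of_le (fun n => by positivity) hle (hasSum_half.summable.mul_right _)
    refine ⟨hs, (hs.tsum_le_tsum hle (hasSum_half.summable.mul_right _)).trans (le_of_eq ?_)⟩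
    rw [tsum_mul_right, hasSum_half.tsum_eq, one_mul]
  let G : {w : ℕ → ℝ // Adm p w} → {w : ℕ → ℝ // Adm p w} := fun w =>
    ⟨comb (fun k => (g k w).1), adm_comb hp0 fun k => (g k w).2⟩
  let U : ℕ → {w : ℕ → ℝ // Adm p w} := fun j => G^[j] ⟨_, hw0⟩
  have hU0 : U 0 = ⟨_, hw0⟩ := rfl
  have hUs : ∀ j, U (j + 1) = G (U j) := fun j => Function.iterate_succ_apply' G j _
  have hUa : ∀ j, Adm p (U j).1 := fun j => (U j).2
  refine ⟨comb (fun j => (U j).1), adm_comb hp0 hUa, fun n => ?_, fun k x => ?_⟩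
  · have h3 := le_comb hp0 hUa 0 n
    refine lt_of_lt_of_le ?_ h3
    rw [hU0]
    positivity
  · obtain ⟨s1, e1⟩ := comb_sum hp0 hUa (A k x)
    obtain ⟨s2, e2⟩ := comb_sum hp0 hUa x
    rw [e1, e2]
    -- one step
    have hstep : ∀ j, ∑' n, (U j).1 n * ‖A k x n‖ ^ 2 ≤
        (B * ‖A k‖) ^ 2 * (2 ^ (k + 1) * ∑' n, (U (j + 1)).1 n * ‖x n‖ ^ 2) := by
      intro j
      refine (hg k (U j) x).trans (mul_le_mul_of_nonneg_left ?_ (sq_nonneg _))
      rw [← tsum_mul_left]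
      refine (adm_Z hp0 (g k (U j)).2 x).1.tsum_le_tsum (fun n => ?_)
        ((adm_Z hp0 (hUa (j + 1)) x).1.mul_left _)
      have h4 := le_comb hp0 (fun k => (g k (U j)).2) k n
      rw [hUs]
      change (g k (U j)).1 n * ‖x n‖ ^ 2 ≤
        2 ^ (k + 1) * (comb (fun k => (g k (U j)).1) n * ‖x n‖ ^ 2)
      rw [← mul_assoc]
      refine mul_le_mul_of_nonneg_right ?_ (sq_nonneg _)
      calc (g k (U j)).1 n = 2 ^ (k + 1) * ((1 / 2 : ℝ) ^ (k + 1) * (g k (U j)).1 n) := by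
            rw [← mul_assoc, ← mul_pow]
            norm_num
        _ ≤ _ := mul_le_mul_of_nonneg_left h4 (by positivity)
    set b : ℕ → ℝ := fun j => (1 / 2 : ℝ) ^ (j + 1) * ∑' n, (U j).1 n * ‖x n‖ ^ 2 with hb
    have hb0 : ∀ j, 0 ≤ b j := fun j => mul_nonneg (by positivity)
      (tsum_nonneg fun n => mul_nonneg ((hUa j).1 n) (sq_nonneg _))
    have hs3 : Summable (fun j => b (j + 1)) := (summable_nat_add_iff 1).2 s2
    have hle3 : ∀ j, (1 / 2 : ℝ) ^ (j + 1) * ∑' n, (U j).1 n * ‖A k x n‖ ^ 2 ≤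
        2 ^ (k + 2) * (B * ‖A k‖) ^ 2 * b (j + 1) := by
      intro j
      calc (1 / 2 : ℝ) ^ (j + 1) * ∑' n, (U j).1 n * ‖A k x n‖ ^ 2
          ≤ (1 / 2 : ℝ) ^ (j + 1) * ((B * ‖A k‖) ^ 2 *
              (2 ^ (k + 1) * ∑' n, (U (j + 1)).1 n * ‖x n‖ ^ 2)) :=
            mul_le_mul_of_nonneg_left (hstep j) (by positivity)
        _ = 2 ^ (k + 2) * (B * ‖A k‖) ^ 2 * b (j + 1) := by
            simp only [hb]
            rw [pow_succ (1 / 2 : ℝ) (j + 1), pow_succ (2 : ℝ) (k + 1)]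
            ring
    calc ∑' j, (1 / 2 : ℝ) ^ (j + 1) * ∑' n, (U j).1 n * ‖A k x n‖ ^ 2
        ≤ ∑' j, 2 ^ (k + 2) * (B * ‖A k‖) ^ 2 * b (j + 1) :=
          s1.tsum_le_tsum hle3 (hs3.mul_left _)
      _ = 2 ^ (k + 2) * (B * ‖A k‖) ^ 2 * ∑' j, b (j + 1) := tsum_mul_left
      _ ≤ 2 ^ (k + 2) * (B * ‖A k‖) ^ 2 * ∑' j, b j := by
          refine mul_le_mul_of_nonneg_left ?_ (by positivity)
          rw [s2.tsum_eq_zero_add]
          linarith [hb0 0]

/-- the norm of `ZP r 2` -/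
lemma norm_sq_Z2 (x : ZP r 2) : ‖x‖ ^ 2 = ∑' n, ‖x n‖ ^ 2 := by
  have h := lp.norm_rpow_eq_tsum (p := 2) (by simp) x
  simpa using h

/-- multiplication by `s n = sqrt (w n)` -/
lemma exists_D (hp0 : 0 < p.toReal) (r : ℕ → ℕ) (w : ℕ → ℝ) (hw : Adm p w) :
    ∃ D : ZP r p →L[ℂ] ZP r 2, ‖D‖ ≤ 1 ∧ (∀ x n, D x n = (Real.sqrt (w n) : ℂ) • x n) ∧
      ∀ x, ‖D x‖ ^ 2 = ∑' n, w n * ‖x n‖ ^ 2 := by
  have hsq : ∀ (x : ZP r p) n, ‖((Real.sqrt (w n) : ℝ) : ℂ) • x n‖ ^ 2 = w n * ‖x n‖ ^ 2 := by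
    intro x n
    rw [norm_smul, mul_pow, Complex.norm_real, Real.norm_of_nonneg (Real.sqrt_nonneg _),
      Real.sq_sqrt (hw.1 n)]
  have hmem : ∀ x : ZP r p, Memℓp (fun n => ((Real.sqrt (w n) : ℝ) : ℂ) • x n) 2 := by
    intro x
    refine (memℓp_gen_iff (by simp)).2 ?_
    refine (adm_Z hp0 hw x).1.congr fun n => ?_
    have := hsq x n
    simpa using this.symm
  let D0 : ZP r p →ₗ[ℂ] ZP r 2 :=
    { toFun := fun x => ⟨fun n => ((Real.sqrt (w n) : ℝ) : ℂ) • x n, hmem x⟩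
      map_add' := fun x y => by
        refine lp.ext (funext fun n => ?_)
        change ((Real.sqrt (w n) : ℝ) : ℂ) • (x n + y n) = _ • x n + _ • y n
        rw [smul_add]
      map_smul' := fun c x => by
        refine lp.ext (funext fun n => ?_)
        change ((Real.sqrt (w n) : ℝ) : ℂ) • (c • x n) = c • (((Real.sqrt (w n) : ℝ) : ℂ) • x n)
        rw [smul_comm] }
  have hn : ∀ x, ‖D0 x‖ ^ 2 = ∑' n, w n * ‖x n‖ ^ 2 := by
    intro x
    rw [norm_sq_Z2]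
    exact tsum_congr fun n => hsq x n
  have hle : ∀ x, ‖D0 x‖ ≤ 1 * ‖x‖ := by
    intro x
    rw [one_mul]
    refine (sq_le_sq₀ (norm_nonneg _) (norm_nonneg _)).1 ?_
    rw [hn]
    exact (adm_Z hp0 hw x).2
  exact ⟨D0.mkContinuous 1 hle, D0.mkContinuous_norm_le zero_le_one hle, fun _ _ => rfl, hn⟩

lemma denseRange_D {s : ℕ → ℝ} {D : ZP r p →L[ℂ] ZP r 2} (hs : ∀ n, 0 < s n)
    (hD : ∀ x n, D x n = (s n : ℂ) • x n) : DenseRange D := by
  intro y
  have h1 := lp.hasSum_single (p := 2) (by simp) y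
  refine mem_closure_of_tendsto h1 (Filter.Eventually.of_forall fun S => ?_)
  refine ⟨∑ n ∈ S, lp.single p n ((s n : ℂ)⁻¹ • y n), ?_⟩
  rw [map_sum]
  refine Finset.sum_congr rfl fun n _ => ?_
  refine lp.ext (funext fun m => ?_)
  rw [hD]
  by_cases hmn : m = n
  · subst hmn
    rw [lp.single_apply_self, lp.single_apply_self, smul_smul,
      mul_inv_cancel₀ (by exact_mod_cast (hs m).ne'), one_smul]
  · rw [lp.single_apply_ne _ _ _ hmn, lp.single_apply_ne _ _ _ hmn, smul_zero]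

lemma trunc_apply' {E : ℕ → Type} [∀ i, NormedAddCommGroup (E i)] [∀ i, NormedSpace ℂ (E i)]
    (q : ℝ≥0∞) [Fact (1 ≤ q)] (S : Set ℕ) [DecidablePred (· ∈ S)] (x : lp E q) (n : ℕ) :
    trunc q S x n = if n ∈ S then x n else 0 := by
  classical
  have h1 : trunc q S x n = (@ite _ (n ∈ S) (Classical.propDecidable _)
      (ContinuousLinearMap.id ℂ (E n)) 0) (x n) := rfl
  rw [h1]
  by_cases hn : n ∈ S
  · simp [hn]
  · simp [hn]

/-- truncation to finitely many coordinates is compact -/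
lemma isCompact_trunc (q : ℝ≥0∞) [Fact (1 ≤ q)] (j : ℕ) (E : ℕ → Type)
    [∀ i, NormedAddCommGroup (E i)] [∀ i, NormedSpace ℂ (E i)] [∀ i, FiniteDimensional ℂ (E i)] :
    IsCompactOperator (⇑(trunc (E := E) q {i | i < j})) := by
  have h : trunc (E := E) q {i | i < j} =
      ∑ i ∈ Finset.range j, (lp.singleContinuousLinearMap ℂ E q i) ∘L (lp.evalCLM ℂ E q i) := by
    refine ContinuousLinearMap.ext fun x => lp.ext (funext fun n => ?_)
    rw [sum_apply, lp.coeFn_sum, Finset.sum_apply, trunc_apply']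
    by_cases hn : n < j
    · rw [if_pos (show n ∈ {i | i < j} from hn), Finset.sum_eq_single n]
      · change x n = (lp.single q n (x n) : lp E q) n
        rw [lp.single_apply_self]
      · intro i _ hi
        change (lp.single q i (x i) : lp E q) n = 0
        rw [lp.single_apply_ne _ _ _ hi.symm]
      · intro h
        exact absurd (Finset.mem_range.2 hn) h
    · rw [if_neg (show ¬ n ∈ {i | i < j} from hn), Finset.sum_eq_zero]
      intro i hi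
      change (lp.single q i (x i) : lp E q) n = 0
      rw [lp.single_apply_ne]
      rintro rfl
      exact hn (Finset.mem_range.1 hi)
  rw [h]
  have h2 : ∀ i, (lp.singleContinuousLinearMap ℂ E q i) ∘L (lp.evalCLM ℂ E q i) ∈
        compactOperator (RingHom.id ℂ) (lp E q) (lp E q) := by
    intro i
    have : ProperSpace (E i) := FiniteDimensional.proper ℂ (E i)
    exact (isCompactOperator_of_locallyCompactSpace_dom
      (lp.evalCLM ℂ E q i)).clm_comp (lp.singleContinuousLinearMap ℂ E q i)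
  exact (compactOperator (RingHom.id ℂ) (lp E q) (lp E q)).sum_mem fun i _ => h2 i

theorem wt (hM : MauStmt) (hC : CutStmt) : WtStmt := by
  intro p _ h2 hp r e c hc
  have hp0 : 0 < p.toReal := toReal_pos' hp
  have h1p : 1 < p := lt_trans (by norm_num : (1 : ℝ≥0∞) < 2) h2
  obtain ⟨B, hB1, hB⟩ := exists_weight hM h2 hp
  have hB0 : 0 < B := zero_lt_one.trans_le hB1
  -- the tails
  have htail : ∀ (m : ℕ) (ε : ℝ), 0 < ε → ∃ N : ℕ, ‖trunc p {i | N ≤ i} ∘L c m‖ ≤ ε := by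
    intro m ε hε
    have h3 := ((hC p p h1p hp hp _ _ (c m)).2.2 (hc m)).1
    obtain ⟨N, hN⟩ := ((Metric.tendsto_nhds.1 h3 ε hε).and (Filter.eventually_ge_atTop 0)).exists
    refine ⟨N, ?_⟩
    have h4 := hN.1
    rw [Real.dist_eq, sub_zero, abs_of_nonneg (norm_nonneg _)] at h4
    exact h4.le
  -- index type of the family
  let ι := Option (ℕ ⊕ ℕ × ℕ)
  let enc : ι → ℕ := Encodable.encode
  have henc : Function.Injective enc := Encodable.encode_injective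
  have hch : ∀ q : ℕ × ℕ, ∃ N : ℕ, ‖trunc p {i | N ≤ i} ∘L c q.1‖ ≤
      (1 / ((q.2 : ℝ) + 1)) / (B * 2 ^ (enc (some (Sum.inr q)) + 2)) :=
    fun q => htail q.1 _ (by positivity)
  choose N hN using hch
  let F : ι → (ZP r p →L[ℂ] ZP r p) := fun i => match i with
    | none => e
    | some (Sum.inl m) => c m
    | some (Sum.inr q) => trunc p {i | N q ≤ i} ∘L c q.1
  obtain ⟨w, hw, hwpos, hwA⟩ := hB r (Function.extend enc F 0)
  have hF : ∀ (i : ι) (x : ZP r p), ∑' n, w n * ‖F i x n‖ ^ 2 ≤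
      2 ^ (enc i + 2) * (B * ‖F i‖) ^ 2 * ∑' n, w n * ‖x n‖ ^ 2 := by
    intro i x
    have h3 := hwA (enc i) x
    rw [henc.extend_apply] at h3
    exact h3
  obtain ⟨D, hD1, hD, hDn⟩ := exists_D hp0 r w hw
  have hs : ∀ n, 0 < Real.sqrt (w n) := fun n => Real.sqrt_pos.2 (hwpos n)
  have hdense : DenseRange D := denseRange_D hs hD
  -- extension of the operators
  have hext : ∀ (i : ι) (K : ℝ), 0 ≤ K → 2 ^ (enc i + 2) * (B * ‖F i‖) ^ 2 ≤ K ^ 2 →
      ∃ T : ZP r 2 →L[ℂ] ZP r 2, T ∘L D = D ∘L F i ∧ ‖T‖ ≤ K := by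
    intro i K hK hle
    have hb : ∀ x : ZP r p, ‖(D ∘L F i).toLinearMap x‖ ≤ K * ‖D.toLinearMap x‖ := by
      intro x
      refine (sq_le_sq₀ (norm_nonneg _) (mul_nonneg hK (norm_nonneg _))).1 ?_
      rw [mul_pow]
      change ‖D (F i x)‖ ^ 2 ≤ K ^ 2 * ‖D x‖ ^ 2
      rw [hDn, hDn]
      refine (hF i x).trans (mul_le_mul_of_nonneg_right hle ?_)
      exact tsum_nonneg fun n => mul_nonneg (hwpos n).le (sq_nonneg _)
    refine ⟨(D ∘L F i).toLinearMap.extendOfNorm D.toLinearMap, ?_, ?_⟩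
    · refine ContinuousLinearMap.ext fun x => ?_
      exact LinearMap.extendOfNorm_eq (f := (D ∘L F i).toLinearMap) (e := D.toLinearMap)
        hdense ⟨K, hb⟩ x
    · exact LinearMap.opNorm_extendOfNorm_le hdense hK hb
  have hext' : ∀ i : ι, ∃ T : ZP r 2 →L[ℂ] ZP r 2, T ∘L D = D ∘L F i := by
    intro i
    obtain ⟨T, hT, _⟩ := hext i (2 ^ (enc i + 2) * (B * ‖F i‖)) (by positivity) (by
      have h5 : (1 : ℝ) ≤ 2 ^ (enc i + 2) := one_le_pow₀ one_le_two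
      have h6 : (2 : ℝ) ^ (enc i + 2) ≤ (2 ^ (enc i + 2)) ^ 2 := by nlinarith [h5]
      calc (2 : ℝ) ^ (enc i + 2) * (B * ‖F i‖) ^ 2
          ≤ (2 ^ (enc i + 2)) ^ 2 * (B * ‖F i‖) ^ 2 :=
            mul_le_mul_of_nonneg_right h6 (sq_nonneg _)
        _ = (2 ^ (enc i + 2) * (B * ‖F i‖)) ^ 2 := (mul_pow _ _ 2).symm)
    exact ⟨T, hT⟩
  obtain ⟨e₂, he₂⟩ := hext' none
  have hc2 : ∀ m, ∃ T : ZP r 2 →L[ℂ] ZP r 2, T ∘L D = D ∘L c m := fun m =>
    hext' (some (Sum.inl m))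
  choose c₂ hc₂ using hc2
  refine ⟨fun n => Real.sqrt (w n), D, e₂, c₂, ⟨hs, hD⟩, hD1, he₂, fun m => ⟨?_, hc₂ m⟩⟩
  -- compactness
  have hsmall : ∀ i : ℕ, ‖c₂ m - trunc 2 {k | k < N (m, i)} ∘L c₂ m‖ ≤ 1 / ((i : ℝ) + 1) := by
    intro i
    have hK : (2 : ℝ) ^ (enc (some (Sum.inr (m, i))) + 2) *
        (B * ‖F (some (Sum.inr (m, i)))‖) ^ 2 ≤ (1 / ((i : ℝ) + 1)) ^ 2 := by
      set E : ℝ := (2 : ℝ) ^ (enc (some (Sum.inr (m, i))) + 2) with hE
      have hE1 : 1 ≤ E := one_le_pow₀ one_le_two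
      have h6 : B * ‖F (some (Sum.inr (m, i)))‖ ≤ (1 / ((i : ℝ) + 1)) / E := by
        calc B * ‖F (some (Sum.inr (m, i)))‖
            ≤ B * ((1 / ((i : ℝ) + 1)) / (B * E)) :=
              mul_le_mul_of_nonneg_left (hN (m, i)) hB0.le
          _ = (1 / ((i : ℝ) + 1)) / E := by field_simp
      calc E * (B * ‖F (some (Sum.inr (m, i)))‖) ^ 2
          ≤ E * ((1 / ((i : ℝ) + 1)) / E) ^ 2 :=
            mul_le_mul_of_nonneg_left (pow_le_pow_left₀ (by positivity) h6 2) (by positivity)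
        _ = (1 / ((i : ℝ) + 1)) ^ 2 / E := by
            field_simp
        _ ≤ (1 / ((i : ℝ) + 1)) ^ 2 := div_le_self (sq_nonneg _) hE1
    obtain ⟨T, hT, hTn⟩ := hext (some (Sum.inr (m, i))) (1 / ((i : ℝ) + 1)) (by positivity) hK
    have hTe : T = c₂ m - trunc 2 {k | k < N (m, i)} ∘L c₂ m := by
      have h7 : ∀ y, T y = (c₂ m - trunc 2 {k | k < N (m, i)} ∘L c₂ m) y := by
        refine fun y => hdense.induction_on y ?_ ?_
        · exact isClosed_eq T.continuous (ContinuousLinearMap.continuous _)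
        · intro x
          have e1 : T (D x) = D (trunc p {k | N (m, i) ≤ k} (c m x)) :=
            congrArg (fun S : ZP r p →L[ℂ] ZP r 2 => S x) hT
          have e2 : c₂ m (D x) = D (c m x) :=
            congrArg (fun S : ZP r p →L[ℂ] ZP r 2 => S x) (hc₂ m)
          change T (D x) = c₂ m (D x) - trunc 2 {k | k < N (m, i)} (c₂ m (D x))
          rw [e1, e2]
          classical
          refine lp.ext (funext fun n => ?_)
          change _ = (D (c m x)) n - (trunc 2 {k | k < N (m, i)} (D (c m x))) n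
          rw [hD, trunc_apply', trunc_apply', hD]
          by_cases hn : n < N (m, i)
          · have h8 : ¬ (n ∈ {k | N (m, i) ≤ k}) := fun h => absurd hn (not_lt.2 h)
            have h9 : n ∈ {k | k < N (m, i)} := hn
            rw [if_neg h8, if_pos h9, smul_zero, sub_self]
          · have h8 : n ∈ {k | N (m, i) ≤ k} := not_lt.1 hn
            have h9 : ¬ (n ∈ {k | k < N (m, i)}) := hn
            rw [if_pos h8, if_neg h9, sub_zero]
      exact ContinuousLinearMap.ext h7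
    rw [← hTe]
    exact hTn
  refine isCompactOperator_of_tendsto (l := Filter.atTop)
    (F := fun i : ℕ => trunc 2 {k | k < N (m, i)} ∘L c₂ m) ?_
    (Filter.Eventually.of_forall fun i => ?_)
  · rw [tendsto_iff_norm_sub_tendsto_zero]
    refine squeeze_zero (fun _ => norm_nonneg _) (fun i => ?_) tendsto_one_div_add_atTop_nhds_zero_nat
    rw [norm_sub_rev]
    exact hsmall i
  · exact (isCompact_trunc 2 _ _).comp_clm (c₂ m)

end Pool.Agent.H80.BDFP
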