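import Mathlib
import Pool.Agent.H33.BDFP.Stmts
import Pool.Agent.H33.BDFP.DStmts
import Pool.Agent.H33.BDFP.Ess
import Pool.Agent.H80.BDFP.WT

attribute [local instance] Pool.Agent.H33.BDFP.NV.instNACG Pool.Agent.H33.BDFP.NV.instModule
  Pool.Agent.H33.BDFP.NV.instNormedSpace Pool.Agent.H33.BDFP.NV.instFD
  Pool.Agent.H33.BDFP.NV.instComplete

/-!
Project BDFP, module BDF: the classical theorem of Brown, Douglas and Fillmore (index zero).
-/

open scoped ENNReal NNReal InnerProductSpace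

noncomputable section

namespace Pool.Agent.H80.BDFP

open Pool.Agent.H33.BDFP

/-- block diagonal operator -/
def bd {r : ℕ → ℕ} (t : ∀ n, Eu (r n) →L[ℂ] Eu (r n)) (C : ℝ) (hC : 0 ≤ C)
    (h : ∀ n, ‖t n‖ ≤ C) : ZP r 2 →L[ℂ] ZP r 2 :=
  lp.mapCLM 2 t hC h

lemma bd_apply {r : ℕ → ℕ} (t : ∀ n, Eu (r n) →L[ℂ] Eu (r n)) (C : ℝ) (hC : 0 ≤ C)
    (h : ∀ n, ‖t n‖ ≤ C) (x : ZP r 2) (n : ℕ) : bd t C hC h x n = t n (x n) := rfl

lemma norm_bd_le {r : ℕ → ℕ} (t : ∀ n, Eu (r n) →L[ℂ] Eu (r n)) (C : ℝ) (hC : 0 ≤ C)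
    (h : ∀ n, ‖t n‖ ≤ C) : ‖bd t C hC h‖ ≤ C := lp.norm_mapCLM_le 2 t hC h

/-- block diagonal operators with blocks tending to zero are compact -/
lemma isCompact_bd {r : ℕ → ℕ} (t : ∀ n, Eu (r n) →L[ℂ] Eu (r n)) (C : ℝ) (hC : 0 ≤ C)
    (h : ∀ n, ‖t n‖ ≤ C) (ht : Filter.Tendsto (fun n => ‖t n‖) Filter.atTop (nhds 0)) :
    IsCompactOperator (⇑(bd t C hC h)) := by
  rw [← eqK_zero_iff]
  refine eqK_of_forall_approx _ _ fun ε hε => ?_
  have h1 := (Metric.tendsto_atTop.1 ht) ε hε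
  obtain ⟨N, hN⟩ := h1
  refine ⟨bd t C hC h ∘L trunc 2 {i | i < N}, ?_, ?_⟩
  · exact (isCompact_trunc 2 N _).clm_comp (bd t C hC h)
  · have h2 : ∀ n, ‖(if n < N then 0 else t n : Eu (r n) →L[ℂ] Eu (r n))‖ ≤ ε := by
      intro n
      split_ifs with hn
      · simpa using hε.le
      · have := hN n (not_lt.1 hn)
        rw [Real.dist_eq, sub_zero, abs_of_nonneg (norm_nonneg _)] at this
        exact this.le
    have h3 : bd t C hC h - 0 - bd t C hC h ∘L trunc 2 {i | i < N} =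
        bd (fun n => (if n < N then 0 else t n : Eu (r n) →L[ℂ] Eu (r n))) ε hε.le h2 := by
      refine ContinuousLinearMap.ext fun x => lp.ext (funext fun n => ?_)
      rw [sub_zero]
      change t n (x n) - t n ((trunc 2 {i | i < N} x : ZP r 2) n) =
        (if n < N then 0 else t n : Eu (r n) →L[ℂ] Eu (r n)) (x n)
      rw [trunc_apply']
      by_cases hn : n < N
      · have h4 : n ∈ {i | i < N} := hn
        rw [if_pos h4, if_pos hn, sub_self]
        rfl
      · have h4 : ¬ n ∈ {i | i < N} := hn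
        rw [if_neg h4, if_neg hn, map_zero, sub_zero]
    rw [h3]
    exact norm_bd_le _ _ _ _

/-- the diagonal block -/
def blkD {r : ℕ → ℕ} (n : ℕ) (K : ZP r 2 →L[ℂ] ZP r 2) : Eu (r n) →L[ℂ] Eu (r n) :=
  (lp.evalCLM ℂ (fun n => EuclideanSpace ℂ (Fin (r n))) 2 n) ∘L K ∘L
    (lp.singleContinuousLinearMap ℂ (fun n => EuclideanSpace ℂ (Fin (r n))) 2 n)

lemma blkD_apply {r : ℕ → ℕ} (n : ℕ) (K : ZP r 2 →L[ℂ] ZP r 2) (x : Eu (r n)) :
    blkD n K x = K (lp.single 2 n x) n := rfl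

lemma norm_blkD_le {r : ℕ → ℕ} (n : ℕ) (K : ZP r 2 →L[ℂ] ZP r 2) : ‖blkD n K‖ ≤ ‖K‖ := by
  refine ContinuousLinearMap.opNorm_le_bound _ (norm_nonneg _) fun x => ?_
  rw [blkD_apply]
  refine (lp.norm_apply_le_norm (by simp) _ n).trans ((K.le_opNorm _).trans ?_)
  rw [lp.norm_single (by simp)]

lemma blkD_sub {r : ℕ → ℕ} (n : ℕ) (K L : ZP r 2 →L[ℂ] ZP r 2) :
    blkD n (K - L) = blkD n K - blkD n L := rfl

/-- the blocks of a compact operator tend to zero -/
lemma blkD_tendsto (hC : CutStmt) {r : ℕ → ℕ} (K : ZP r 2 →L[ℂ] ZP r 2)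
    (hK : IsCompactOperator (⇑K)) :
    Filter.Tendsto (fun n => ‖blkD n K‖) Filter.atTop (nhds 0) := by
  have h1 := ((hC 2 2 (by norm_num) (by simp) (by simp) _ _ K).2.2 hK).2
  refine squeeze_zero (fun _ => norm_nonneg _) (fun n => ?_) h1
  refine ContinuousLinearMap.opNorm_le_bound _ (norm_nonneg _) fun x => ?_
  have h2 : (K ∘L trunc 2 {i | n ≤ i}) (lp.single 2 n x) = K (lp.single 2 n x) := by
    change K (trunc 2 {i | n ≤ i} (lp.single 2 n x)) = _
    congr 1
    refine lp.ext (funext fun k => ?_)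
    classical
    rw [trunc_apply']
    by_cases hk : n ≤ k
    · have h4 : k ∈ {i | n ≤ i} := hk
      rw [if_pos h4]
    · have h4 : ¬ k ∈ {i | n ≤ i} := hk
      rw [if_neg h4, lp.single_apply_ne]
      rintro rfl
      exact hk le_rfl
  rw [blkD_apply, ← h2]
  refine (lp.norm_apply_le_norm (by simp) _ n).trans
    ((ContinuousLinearMap.le_opNorm _ _).trans ?_)
  rw [lp.norm_single (by simp)]

section conj

variable {H : Type} [NormedAddCommGroup H] [InnerProductSpace ℂ H] {r : ℕ → ℕ}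

/-- conjugation by an isometry -/
def cj (Φ : H ≃ₗᵢ[ℂ] ZP r 2) (S : H →L[ℂ] H) : ZP r 2 →L[ℂ] ZP r 2 :=
  (Φ.toContinuousLinearEquiv : H →L[ℂ] ZP r 2) ∘L S ∘L
    (Φ.symm.toContinuousLinearEquiv : ZP r 2 →L[ℂ] H)

/-- conjugation back -/
def cjb (Φ : H ≃ₗᵢ[ℂ] ZP r 2) (S : ZP r 2 →L[ℂ] ZP r 2) : H →L[ℂ] H :=
  (Φ.symm.toContinuousLinearEquiv : ZP r 2 →L[ℂ] H) ∘L S ∘L
    (Φ.toContinuousLinearEquiv : H →L[ℂ] ZP r 2)

lemma cj_apply (Φ : H ≃ₗᵢ[ℂ] ZP r 2) (S : H →L[ℂ] H) (y : ZP r 2) :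
    cj Φ S y = Φ (S (Φ.symm y)) := rfl

lemma cjb_apply (Φ : H ≃ₗᵢ[ℂ] ZP r 2) (S : ZP r 2 →L[ℂ] ZP r 2) (x : H) :
    cjb Φ S x = Φ.symm (S (Φ x)) := rfl

lemma cj_compact (Φ : H ≃ₗᵢ[ℂ] ZP r 2) (S : H →L[ℂ] H) (h : IsCompactOperator (⇑S)) :
    IsCompactOperator (⇑(cj Φ S)) :=
  (h.comp_clm (Φ.symm.toContinuousLinearEquiv : ZP r 2 →L[ℂ] H)).clm_comp
    (Φ.toContinuousLinearEquiv : H →L[ℂ] ZP r 2)

lemma cjb_compact (Φ : H ≃ₗᵢ[ℂ] ZP r 2) (S : ZP r 2 →L[ℂ] ZP r 2)
    (h : IsCompactOperator (⇑S)) : IsCompactOperator (⇑(cjb Φ S)) :=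
  (h.comp_clm (Φ.toContinuousLinearEquiv : H →L[ℂ] ZP r 2)).clm_comp
    (Φ.symm.toContinuousLinearEquiv : ZP r 2 →L[ℂ] H)

end conj

theorem bdf (hP : Pair1Stmt) (hFR : FRStmt) (hQ : QdStmt) (hD : DgbStmt) (hC : CutStmt) :
    BdfStmt := by
  intro H _ _ _ _ hH M hMc hMne T hT hidx hnot
  obtain ⟨A, iA, iN, π, hgood, hker⟩ := hP H hH
  have hpi : ∀ S S' : H →L[ℂ] H, π S = π S' ↔ EqK S S' := by
    intro S S'
    rw [← sub_eq_zero, ← map_sub, hker]
    rfl
  have hsurj : ∀ y : A, ∀ ε : ℝ, ‖y‖ < ε → ∃ X : H →L[ℂ] H, π X = y ∧ ‖X‖ < ε := by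
    intro y ε hy
    have hε : 0 < ε := (norm_nonneg _).trans_lt hy
    have h1 : ‖((ε : ℂ)⁻¹) • y‖ < 1 := by
      rw [norm_smul, norm_inv, Complex.norm_real, Real.norm_of_nonneg hε.le,
        inv_mul_lt_iff₀ hε, mul_one]
      exact hy
    obtain ⟨X, hX, hXn⟩ := hgood.lift _ h1
    refine ⟨(ε : ℂ) • X, ?_, ?_⟩
    · rw [map_smul, hX, smul_smul, mul_inv_cancel₀ (by exact_mod_cast hε.ne'), one_smul]
    · rw [norm_smul, Complex.norm_real, Real.norm_of_nonneg hε.le]
      calc ε * ‖X‖ < ε * 1 := mul_lt_mul_of_pos_left hXn hε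
        _ = ε := mul_one _
  set a : A := π T with ha
  have hTT : star a * a = a * star a := by
    rw [ha, ← map_star, ← map_mul, ← map_mul, hpi]
    exact hT
  have hnormal : IsStarNormal a := ⟨hTT⟩
  have halg : ∀ μ : ℂ, π (T - μ • ContinuousLinearMap.id ℂ H) = a - algebraMap ℂ A μ := by
    intro μ
    rw [map_sub, map_smul]
    congr 1
    have : π (ContinuousLinearMap.id ℂ H) = 1 := map_one π
    rw [this, Algebra.algebraMap_eq_smul_one]
  -- the spectrum
  have hlft : ∀ μ : ℂ, μ ∉ M → Lft π (a - algebraMap ℂ A μ) := by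
    intro μ hμ
    obtain ⟨U, hU⟩ := hidx μ hμ
    refine ⟨U, ?_⟩
    rw [← halg]
    exact (hpi _ _).2 hU
  have hspec : spectrum ℂ a = M := by
    apply Set.Subset.antisymm
    · intro μ hμ
      by_contra hM'
      obtain ⟨W, hW⟩ := hlft μ hM'
      rw [spectrum.mem_iff] at hμ
      apply hμ
      have h1 : IsUnit (a - algebraMap ℂ A μ) := by
        rw [← hW]
        exact W.isUnit.map π
      rw [← neg_sub]
      exact h1.neg
    · intro μ hμ
      rw [spectrum.mem_iff]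
      intro hu
      have h1 : IsUnit (a - algebraMap ℂ A μ) := by
        rw [← neg_sub]
        exact hu.neg
      obtain ⟨u, hu'⟩ := h1
      obtain ⟨S, hS, _⟩ := hsurj (↑u⁻¹ : A) (‖(↑u⁻¹ : A)‖ + 1) (lt_add_one _)
      refine hnot μ hμ ⟨S, ?_, ?_⟩
      · rw [← hpi]
        change π (S * (T - μ • ContinuousLinearMap.id ℂ H)) = π 1
        rw [map_mul, halg, hS, ← hu', map_one]
        exact u.inv_mul
      · rw [← hpi]
        change π ((T - μ • ContinuousLinearMap.id ℂ H) * S) = π 1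
        rw [map_mul, halg, hS, ← hu', map_one]
        exact u.mul_inv
  -- quasidiagonality
  have hqd : ∀ ε : ℝ, 0 < ε → ∃ (m : ℕ) (Q : Fin m → (H →L[ℂ] H)) (c : Fin m → ℂ)
      (K : H →L[ℂ] H), (∀ i, IsStarProjection (Q i)) ∧ (∀ i j, i ≠ j → Q i * Q j = 0) ∧
      ∑ i, Q i = 1 ∧ IsCompactOperator (⇑K) ∧ ‖T - (∑ i, c i • Q i) - K‖ ≤ ε := by
    intro ε hε
    obtain ⟨m, Q, c, h1, h2, h3, _, h5⟩ := hFR _ A π hgood a hnormal
      (fun μ hμ => hlft μ (by rwa [hspec] at hμ)) (ε / 2) (by positivity)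
    have h6 : ‖a - π (∑ i, c i • Q i)‖ < ε := by
      rw [norm_sub_rev]
      linarith
    obtain ⟨X, hX, hXn⟩ := hsurj _ ε h6
    refine ⟨m, Q, c, T - (∑ i, c i • Q i) - X, h1, h2, h3, ?_, ?_⟩
    · rw [← hker, map_sub, map_sub, hX, sub_self]
    · rw [sub_sub_cancel]
      exact hXn.le
  obtain ⟨d, Φ, t, T', C, ht, hTT', hΦ⟩ := hQ H hH T hqd
  have hC0 : 0 ≤ C := (norm_nonneg _).trans (ht 0)
  have hpT' : π T' = a := ((hpi _ _).2 hTT').symm
  -- the diagonal form of T'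
  have hcj : ∀ y n, cj Φ T' y n = t n (y n) := by
    intro y n
    rw [cj_apply, hΦ, LinearIsometryEquiv.apply_symm_apply]
  -- the adjoint
  have hts : ∀ n, ‖ContinuousLinearMap.adjoint (t n)‖ ≤ C := by
    intro n
    rw [LinearIsometryEquiv.norm_map]
    exact ht n
  have hadj : cjb Φ (bd (fun n => ContinuousLinearMap.adjoint (t n)) C hC0 hts) =
      ContinuousLinearMap.adjoint T' := by
    rw [ContinuousLinearMap.eq_adjoint_iff]
    intro x y
    rw [cjb_apply, ← LinearIsometryEquiv.inner_map_map Φ, LinearIsometryEquiv.apply_symm_apply,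
      ← LinearIsometryEquiv.inner_map_map Φ x, lp.inner_eq_tsum, lp.inner_eq_tsum]
    refine tsum_congr fun n => ?_
    rw [bd_apply, hΦ, ContinuousLinearMap.adjoint_inner_left]
  have hcjs : ∀ y n, cj Φ (ContinuousLinearMap.adjoint T') y n =
      ContinuousLinearMap.adjoint (t n) (y n) := by
    intro y n
    rw [cj_apply, ← hadj, cjb_apply, LinearIsometryEquiv.apply_symm_apply,
      LinearIsometryEquiv.apply_symm_apply, bd_apply]
  -- commutators of the blocks
  have hcomm : Filter.Tendsto (fun n => ‖star (t n) * t n - t n * star (t n)‖)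
      Filter.atTop (nhds 0) := by
    have hK : IsCompactOperator (⇑(ContinuousLinearMap.adjoint T' ∘L T' -
        T' ∘L ContinuousLinearMap.adjoint T')) := by
      change EqK _ _
      rw [← hpi]
      change π (star T' * T') = π (T' * star T')
      rw [map_mul, map_mul, map_star, hpT']
      exact hTT
    have h1 := blkD_tendsto hC _ (cj_compact Φ _ hK)
    refine h1.congr fun n => ?_
    congr 1
    refine ContinuousLinearMap.ext fun x => ?_
    have e1 : cj Φ (ContinuousLinearMap.adjoint T' ∘L T' -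
        T' ∘L ContinuousLinearMap.adjoint T') (lp.single 2 n x) =
        cj Φ (ContinuousLinearMap.adjoint T') (cj Φ T' (lp.single 2 n x)) -
        cj Φ T' (cj Φ (ContinuousLinearMap.adjoint T') (lp.single 2 n x)) := by
      simp only [cj_apply, LinearIsometryEquiv.symm_apply_apply]
      exact map_sub Φ _ _
    rw [blkD_apply, e1]
    change cj Φ (ContinuousLinearMap.adjoint T') (cj Φ T' (lp.single 2 n x)) n -
      cj Φ T' (cj Φ (ContinuousLinearMap.adjoint T') (lp.single 2 n x)) n = _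
    rw [hcj, hcjs, hcj, hcjs, lp.single_apply_self]
    rfl
  -- inverses of the blocks
  have hinv : ∀ μ : ℂ, μ ∉ M → ∃ (s : ∀ n, Eu (d n + 1) →L[ℂ] Eu (d n + 1)) (C' : ℝ),
      (∀ n, ‖s n‖ ≤ C') ∧
      Filter.Tendsto (fun n => ‖s n * (t n - μ • 1) - 1‖) Filter.atTop (nhds 0) ∧
      Filter.Tendsto (fun n => ‖(t n - μ • 1) * s n - 1‖) Filter.atTop (nhds 0) := by
    intro μ hμ
    obtain ⟨U, hU⟩ := hidx μ hμ
    have hT'μ : π (T' - μ • ContinuousLinearMap.id ℂ H) = π (U : H →L[ℂ] H) := by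
      rw [(hpi _ _).2 hU, map_sub, map_sub, hpT']
    set S : H →L[ℂ] H := ((U⁻¹ : (H →L[ℂ] H)ˣ) : H →L[ℂ] H) with hS
    have hK1 : IsCompactOperator (⇑(S ∘L (T' - μ • ContinuousLinearMap.id ℂ H) -
        ContinuousLinearMap.id ℂ H)) := by
      change EqK _ _
      rw [← hpi]
      change π (S * (T' - μ • ContinuousLinearMap.id ℂ H)) = π 1
      rw [map_mul, hT'μ, ← map_mul, hS, Units.inv_mul]
    have hK2 : IsCompactOperator (⇑((T' - μ • ContinuousLinearMap.id ℂ H) ∘L S -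
        ContinuousLinearMap.id ℂ H)) := by
      change EqK _ _
      rw [← hpi]
      change π ((T' - μ • ContinuousLinearMap.id ℂ H) * S) = π 1
      rw [map_mul, hT'μ, ← map_mul, hS, Units.mul_inv]
    have hcjμ : ∀ y n, cj Φ (T' - μ • ContinuousLinearMap.id ℂ H) y n =
        t n (y n) - μ • y n := by
      intro y n
      have e1 : cj Φ (T' - μ • ContinuousLinearMap.id ℂ H) y = cj Φ T' y - μ • y := by
        rw [cj_apply, cj_apply]
        change Φ (T' (Φ.symm y) - μ • (Φ.symm y)) = _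
        rw [map_sub, map_smul, LinearIsometryEquiv.apply_symm_apply]
      rw [e1]
      change cj Φ T' y n - μ • y n = _
      rw [hcj]
    refine ⟨fun n => blkD n (cj Φ S), ‖cj Φ S‖, fun n => norm_blkD_le n _, ?_, ?_⟩
    · refine (blkD_tendsto hC _ (cj_compact Φ _ hK1)).congr fun n => ?_
      congr 1
      refine ContinuousLinearMap.ext fun x => ?_
      have e1 : cj Φ (S ∘L (T' - μ • ContinuousLinearMap.id ℂ H) -
          ContinuousLinearMap.id ℂ H) (lp.single 2 n x) =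
          cj Φ S (cj Φ (T' - μ • ContinuousLinearMap.id ℂ H) (lp.single 2 n x)) -
          lp.single 2 n x := by
        simp only [cj_apply, LinearIsometryEquiv.symm_apply_apply]
        change Φ (S ((T' - μ • ContinuousLinearMap.id ℂ H) (Φ.symm (lp.single 2 n x))) -
          Φ.symm (lp.single 2 n x)) = _
        rw [map_sub, LinearIsometryEquiv.apply_symm_apply]
      have e2 : cj Φ (T' - μ • ContinuousLinearMap.id ℂ H) (lp.single 2 n x) =
          lp.single 2 n (t n x - μ • x) := by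
        refine lp.ext (funext fun k => ?_)
        rw [hcjμ]
        by_cases hk : k = n
        · subst hk
          rw [lp.single_apply_self, lp.single_apply_self]
        · rw [lp.single_apply_ne _ _ _ hk, lp.single_apply_ne _ _ _ hk, map_zero, smul_zero,
            sub_zero]
      rw [blkD_apply, e1, e2]
      change cj Φ S (lp.single 2 n (t n x - μ • x)) n - (lp.single 2 n x : ZP (fun n => d n + 1) 2) n = _
      rw [lp.single_apply_self]
      rfl
    · refine (blkD_tendsto hC _ (cj_compact Φ _ hK2)).congr fun n => ?_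
      congr 1
      refine ContinuousLinearMap.ext fun x => ?_
      have e1 : cj Φ ((T' - μ • ContinuousLinearMap.id ℂ H) ∘L S -
          ContinuousLinearMap.id ℂ H) (lp.single 2 n x) =
          cj Φ (T' - μ • ContinuousLinearMap.id ℂ H) (cj Φ S (lp.single 2 n x)) -
          lp.single 2 n x := by
        simp only [cj_apply, LinearIsometryEquiv.symm_apply_apply]
        change Φ ((T' - μ • ContinuousLinearMap.id ℂ H) (S (Φ.symm (lp.single 2 n x))) -
          Φ.symm (lp.single 2 n x)) = _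
        rw [map_sub, LinearIsometryEquiv.apply_symm_apply]
      rw [blkD_apply, e1]
      change cj Φ (T' - μ • ContinuousLinearMap.id ℂ H) (cj Φ S (lp.single 2 n x)) n -
        (lp.single 2 n x : ZP (fun n => d n + 1) 2) n = _
      rw [hcjμ, lp.single_apply_self]
      rfl
  -- diagonalisation
  obtain ⟨μ, b, D, hμ, hDb, hlim⟩ := hD d M hMc hMne t C ht hcomm hinv
  obtain ⟨C₁, hC₁⟩ := hlim.bddAbove_range
  have hC₁' : ∀ n, ‖t n - D n‖ ≤ C₁ := fun n => hC₁ ⟨n, rfl⟩
  have hC₁0 : 0 ≤ C₁ := (norm_nonneg _).trans (hC₁' 0)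
  have hDn : ∀ n, ‖D n‖ ≤ C + C₁ := by
    intro n
    calc ‖D n‖ = ‖t n - (t n - D n)‖ := by rw [sub_sub_cancel]
      _ ≤ ‖t n‖ + ‖t n - D n‖ := norm_sub_le _ _
      _ ≤ C + C₁ := add_le_add (ht n) (hC₁' n)
  have hCC : 0 ≤ C + C₁ := add_nonneg hC0 hC₁0
  -- the vectors
  let v : (Σ n, Fin (d n + 1)) → H := fun q => Φ.symm (lp.single 2 q.1 (b q.1 q.2))
  have hinf : Infinite (Σ n, Fin (d n + 1)) :=
    Infinite.of_injective (fun n : ℕ => (⟨n, 0⟩ : Σ n, Fin (d n + 1))) (by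
      intro m n h
      exact congrArg Sigma.fst h)
  obtain ⟨e⟩ : Nonempty (ℕ ≃ Σ n, Fin (d n + 1)) := nonempty_equiv_of_countable
  have hvo : Orthonormal ℂ v := by
    rw [orthonormal_iff_ite]
    rintro ⟨n, i⟩ ⟨m, j⟩
    simp only [v]
    rw [LinearIsometryEquiv.inner_map_map, lp.inner_single_left]
    by_cases hnm : n = m
    · subst hnm
      rw [lp.single_apply_self, orthonormal_iff_ite.1 (b n).orthonormal]
      by_cases hij : i = j
      · subst hij; simp
      · rw [if_neg hij, if_neg]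
        intro h
        rw [Sigma.mk.inj_iff] at h
        exact hij (eq_of_heq h.2)
    · rw [lp.single_apply_ne _ _ _ hnm, inner_zero_right, if_neg]
      intro h
      rw [Sigma.mk.inj_iff] at h
      exact hnm h.1
  have hsp : ⊤ ≤ (Submodule.span ℂ (Set.range (v ∘ e))).topologicalClosure := by
    intro x _
    have hr : Set.range (v ∘ e) = Set.range v := e.surjective.range_comp v
    rw [hr]
    have h1 : ∀ (n : ℕ) (z : Eu (d n + 1)),
        Φ.symm (lp.single 2 n z) ∈ Submodule.span ℂ (Set.range v) := by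
      intro n z
      have h2 : (lp.single 2 n z : ZP (fun n => d n + 1) 2) =
          ∑ i, (b n).repr z i • (lp.single 2 n (b n i) : ZP (fun n => d n + 1) 2) := by
        conv_lhs => rw [← (b n).sum_repr z]
        rw [← lp.singleContinuousLinearMap_apply (𝕜 := ℂ), map_sum]
        refine Finset.sum_congr rfl fun i _ => ?_
        rw [map_smul]
        rfl
      rw [h2, map_sum]
      refine Submodule.sum_mem _ fun i _ => ?_
      rw [map_smul]
      exact Submodule.smul_mem _ _ (Submodule.subset_span ⟨⟨n, i⟩, rfl⟩)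
    have h3 := lp.hasSum_single (p := 2) (by simp) (Φ x)
    have h4 := (Φ.symm.continuous.tendsto (Φ x)).comp h3
    rw [LinearIsometryEquiv.symm_apply_apply] at h4
    refine mem_closure_of_tendsto h4 (Filter.Eventually.of_forall fun s => ?_)
    change Φ.symm (∑ n ∈ s, lp.single 2 n (Φ x n)) ∈ Submodule.span ℂ (Set.range v)
    rw [map_sum]
    exact Submodule.sum_mem _ fun n _ => h1 n _
  have hve : Orthonormal ℂ (v ∘ e) := hvo.comp e e.injective
  refine ⟨HilbertBasis.mk hve hsp, fun k => μ (e k).1 (e k).2,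
    cjb Φ (bd D (C + C₁) hCC hDn), fun k => hμ _ _, fun k => ?_, ?_⟩
  · rw [HilbertBasis.coe_mk]
    change cjb Φ (bd D (C + C₁) hCC hDn) (Φ.symm (lp.single 2 (e k).1 (b (e k).1 (e k).2))) =
      μ (e k).1 (e k).2 • Φ.symm (lp.single 2 (e k).1 (b (e k).1 (e k).2))
    rw [cjb_apply, LinearIsometryEquiv.apply_symm_apply, ← map_smul]
    congr 1
    refine lp.ext (funext fun n => ?_)
    rw [bd_apply]
    change _ = μ (e k).1 (e k).2 • (lp.single 2 (e k).1 (b (e k).1 (e k).2) : ZP (fun n => d n + 1) 2) n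
    by_cases hn : n = (e k).1
    · subst hn
      rw [lp.single_apply_self, hDb]
    · rw [lp.single_apply_ne _ _ _ hn, map_zero, smul_zero]
  · refine hTT'.trans ?_
    have h5 : T' - cjb Φ (bd D (C + C₁) hCC hDn) =
        cjb Φ (bd (fun n => t n - D n) C₁ hC₁0 hC₁') := by
      refine ContinuousLinearMap.ext fun x => Φ.injective ?_
      refine lp.ext (funext fun n => ?_)
      change (Φ (T' x - cjb Φ (bd D (C + C₁) hCC hDn) x)) n = _
      rw [map_sub, cjb_apply, cjb_apply, LinearIsometryEquiv.apply_symm_apply,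
        LinearIsometryEquiv.apply_symm_apply, bd_apply]
      change Φ (T' x) n - bd D (C + C₁) hCC hDn (Φ x) n = _
      rw [hΦ, bd_apply]
      rfl
    change IsCompactOperator (⇑(T' - cjb Φ (bd D (C + C₁) hCC hDn)))
    rw [h5]
    exact cjb_compact Φ _ (isCompact_bd _ _ _ _ hlim)

end Pool.Agent.H80.BDFP
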