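import Mathlib
import Pool.Agent.H33.BDFP.Stmts
import Pool.Agent.H80.BDFP.MAU
import Pool.Agent.H32.BDFP.KH

attribute [local instance] Pool.Agent.H33.BDFP.NV.instNACG Pool.Agent.H33.BDFP.NV.instModule
  Pool.Agent.H33.BDFP.NV.instNormedSpace Pool.Agent.H33.BDFP.NV.instFD
  Pool.Agent.H33.BDFP.NV.instComplete

/-!
Project BDFP, module DIL1: square functions of a representation.
-/

open scoped ENNReal NNReal

noncomputable section

namespace Pool.Agent.H80.BDFP

open Pool.Agent.H33.BDFP

variable {p : ℝ≥0∞} [Fact (1 ≤ p)]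

lemma hasSum_signAvg' (hp0 : 0 < p.toReal) {ι : Type} [Fintype ι] [DecidableEq ι]
    {E : ℕ → Type} [∀ i, NormedAddCommGroup (E i)] (z : (ι → Bool) → lp E p) :
    HasSum (fun n => signAvg (fun ε => ‖z ε n‖ ^ p.toReal))
      (signAvg (fun ε => ‖z ε‖ ^ p.toReal)) := by
  unfold signAvg
  refine HasSum.div_const ?_ _
  exact hasSum_sum fun ε _ => lp.hasSum_norm hp0 (z ε)

lemma norm_sgn (b : Bool) : ‖sgn b‖ = 1 := by cases b <;> simp [sgn]

lemma sgn_not (b : Bool) : sgn (!b) = - sgn b := by cases b <;> simp [sgn]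

lemma sgn_mul_self (b : Bool) : sgn b * sgn b = 1 := by cases b <;> simp [sgn]

/-- orthogonality of the signs -/
lemma sum_sgn_mul {ι : Type} [Fintype ι] [DecidableEq ι] (i l : ι) :
    ∑ ε : ι → Bool, sgn (ε i) * sgn (ε l) = if i = l then 2 ^ (Fintype.card ι) else 0 := by
  by_cases h : i = l
  · subst h
    simp only [sgn_mul_self, if_true]
    simp
  · rw [if_neg h]
    let φ : (ι → Bool) ≃ (ι → Bool) :=
      { toFun := fun ε => Function.update ε i (!(ε i))
        invFun := fun ε => Function.update ε i (!(ε i))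
        left_inv := fun ε => by
          funext k
          by_cases hk : k = i
          · subst hk; simp
          · simp [hk]
        right_inv := fun ε => by
          funext k
          by_cases hk : k = i
          · subst hk; simp
          · simp [hk] }
    have h1 := Equiv.sum_comp φ (fun ε : ι → Bool => sgn (ε i) * sgn (ε l))
    have h2 : ∀ ε : ι → Bool, sgn (φ ε i) * sgn (φ ε l) = - (sgn (ε i) * sgn (ε l)) := by
      intro ε
      have e1 : φ ε i = !(ε i) := by
        change Function.update ε i (!(ε i)) i = _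
        simp
      have e2 : φ ε l = ε l := by
        change Function.update ε i (!(ε i)) l = _
        rw [Function.update_of_ne (Ne.symm h)]
      rw [e1, e2, sgn_not, neg_mul]
    simp only [h2] at h1
    rw [Finset.sum_neg_distrib] at h1
    have h3 : (2 : ℂ) * ∑ ε : ι → Bool, sgn (ε i) * sgn (ε l) = 0 := by
      linear_combination -h1
    exact (mul_eq_zero.1 h3).resolve_left two_ne_zero

/-- coordinate map `ZP (fun _ => m) p → LP p` -/
def coordZ (p : ℝ≥0∞) [Fact (1 ≤ p)] (m : ℕ) (i : Fin m) : ZP (fun _ => m) p →ₗ[ℂ] LP p where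
  toFun y := ⟨fun n => y n i, (lp.memℓp y).mono' fun n => PiLp.norm_apply_le _ _⟩
  map_add' _ _ := rfl
  map_smul' _ _ := rfl

lemma coordZ_apply (m : ℕ) (i : Fin m) (y : ZP (fun _ => m) p) (n : ℕ) :
    coordZ p m i y n = y n i := rfl

lemma euc_rpow {m : ℕ} (v : EuclideanSpace ℂ (Fin m)) (P : ℝ) :
    ‖v‖ ^ P = (∑ i, ‖v i‖ ^ 2) ^ (P / 2) := by
  rw [EuclideanSpace.norm_eq, Real.sqrt_eq_rpow,
    ← Real.rpow_mul (Finset.sum_nonneg fun _ _ => sq_nonneg _)]
  congr 1
  ring

/-- `∑ i, sgn (ε i) • d i` -/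
def ysumL {m : ℕ} (d : Fin m → LP p) (ε : Fin m → Bool) : LP p := ∑ i, sgn (ε i) • d i

lemma ysumL_apply {m : ℕ} (d : Fin m → LP p) (ε : Fin m → Bool) (n : ℕ) :
    ysumL d ε n = ∑ i, sgn (ε i) • d i n := by
  unfold ysumL
  rw [lp.coeFn_sum, Finset.sum_apply]
  rfl

theorem dil1 (hK : KhStmt) : Dil1Stmt := by
  intro p _ h2p hp
  have hp0 : 0 < p.toReal := toReal_pos' hp
  have h2 : 2 ≤ p.toReal := by
    have := (ENNReal.toReal_le_toReal (by simp) hp).2 h2p
    simpa using this
  obtain ⟨B, hB1, hKB⟩ := hK.1 p.toReal h2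
  have hB0 : 0 ≤ B := zero_le_one.trans hB1
  refine ⟨B, hB0, ?_⟩
  intro M _ ρ C hC hρ m g S hS hgS
  -- pointwise inequalities
  have hlow : ∀ (d : Fin m → LP p) (n : ℕ),
      (∑ i, ‖d i n‖ ^ 2) ^ (p.toReal / 2) ≤ signAvg (fun ε => ‖ysumL d ε n‖ ^ p.toReal) := by
    intro d n
    have := (hKB ℂ (Fin m) (fun l => d l n)).2
    simp only [ysumL_apply]
    exact this
  have hup : ∀ (d : Fin m → LP p) (n : ℕ),
      signAvg (fun ε => ‖ysumL d ε n‖ ^ p.toReal) ≤
        B ^ p.toReal * (∑ i, ‖d i n‖ ^ 2) ^ (p.toReal / 2) := by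
    intro d n
    have := (hKB ℂ (Fin m) (fun l => d l n)).1
    simp only [ysumL_apply]
    exact this
  -- norm of the random operators
  have hgn : ∀ ε : Fin m → Bool, ‖∑ i, sgn (ε i) • g i‖ ≤ S := by
    intro ε
    rw [ContinuousMap.norm_le _ hS]
    intro z
    rw [ContinuousMap.sum_apply]
    refine (norm_sum_le _ _).trans ((Finset.sum_le_sum fun i _ => ?_).trans (hgS z))
    rw [ContinuousMap.smul_apply, norm_smul, norm_sgn, one_mul]
  have hop : ∀ (ε : Fin m → Bool) (x : LP p),
      ‖ρ.hom (∑ i, sgn (ε i) • g i) x‖ ≤ C * S * ‖x‖ := by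
    intro ε x
    refine (ContinuousLinearMap.le_opNorm _ _).trans
      (mul_le_mul_of_nonneg_right ?_ (norm_nonneg _))
    exact (hρ _).trans (mul_le_mul_of_nonneg_left (hgn ε) hC)
  have hys : ∀ (ε : Fin m → Bool) (x : LP p),
      ysumL (fun i => ρ.hom (g i) x) ε = ρ.hom (∑ i, sgn (ε i) • g i) x := by
    intro ε x
    unfold ysumL
    rw [map_sum, sum_apply]
    refine Finset.sum_congr rfl fun i _ => ?_
    rw [map_smul]
    rfl
  -- the map J
  have hJs : ∀ x : LP p, Summable (fun n =>
      ‖(WithLp.toLp 2 (fun i => ρ.hom (g i) x n) : EuclideanSpace ℂ (Fin m))‖ ^ p.toReal) := by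
    intro x
    refine Summable.of_nonneg_of_le (fun n => by positivity) (fun n => ?_)
      (hasSum_signAvg' hp0 (ysumL (fun i => ρ.hom (g i) x))).summable
    rw [euc_rpow]
    exact hlow (fun i => ρ.hom (g i) x) n
  let J0 : LP p →ₗ[ℂ] ZP (fun _ => m) p :=
    { toFun := fun x => ⟨fun n => (WithLp.toLp 2 (fun i => ρ.hom (g i) x n) :
          EuclideanSpace ℂ (Fin m)), (memℓp_gen_iff hp0).2 (hJs x)⟩
      map_add' := fun x y => by
        refine lp.ext (funext fun n => ?_)
        ext i
        change ρ.hom (g i) (x + y) n = ρ.hom (g i) x n + ρ.hom (g i) y n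
        rw [map_add]
        rfl
      map_smul' := fun c x => by
        refine lp.ext (funext fun n => ?_)
        ext i
        change ρ.hom (g i) (c • x) n = c * ρ.hom (g i) x n
        rw [map_smul]
        rfl }
  have hJapp : ∀ x n i, J0 x n i = ρ.hom (g i) x n := fun _ _ _ => rfl
  have hJle : ∀ x, ‖J0 x‖ ≤ (C * S) * ‖x‖ := by
    intro x
    have h3 : ‖J0 x‖ ^ p.toReal ≤ (C * S * ‖x‖) ^ p.toReal := by
      rw [lp.norm_rpow_eq_tsum hp0]
      have h4 : ∑' n, ‖J0 x n‖ ^ p.toReal ≤
          signAvg (fun ε => ‖ysumL (fun i => ρ.hom (g i) x) ε‖ ^ p.toReal) := by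
        rw [← (hasSum_signAvg' hp0 (ysumL (fun i => ρ.hom (g i) x))).tsum_eq]
        refine (hJs x).tsum_le_tsum (fun n => ?_)
          (hasSum_signAvg' hp0 (ysumL (fun i => ρ.hom (g i) x))).summable
        change ‖(WithLp.toLp 2 (fun i => ρ.hom (g i) x n) : EuclideanSpace ℂ (Fin m))‖ ^
          p.toReal ≤ _
        rw [euc_rpow]
        exact hlow (fun i => ρ.hom (g i) x) n
      refine h4.trans ?_
      have h5 : signAvg (fun ε => ‖ysumL (fun i => ρ.hom (g i) x) ε‖ ^ p.toReal) ≤
          signAvg (ι := Fin m) (fun _ => (C * S * ‖x‖) ^ p.toReal) := by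
        refine signAvg_mono fun ε => ?_
        rw [hys]
        exact Real.rpow_le_rpow (norm_nonneg _) (hop ε x) hp0.le
      refine h5.trans (le_of_eq ?_)
      unfold signAvg
      rw [Finset.sum_const, Finset.card_univ, Fintype.card_fun, Fintype.card_bool, nsmul_eq_mul]
      push_cast
      rw [mul_div_cancel_left₀]
      positivity
    exact (Real.rpow_le_rpow_iff (norm_nonneg _) (by positivity) hp0).1 h3
  -- the map R
  let R0 : ZP (fun _ => m) p →ₗ[ℂ] LP p :=
    ∑ i, (ρ.hom (g i)).toLinearMap ∘ₗ coordZ p m i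
  have hRapp : ∀ y, R0 y = ∑ i, ρ.hom (g i) (coordZ p m i y) := by
    intro y
    simp only [R0]
    rw [LinearMap.sum_apply]
    rfl
  have hRavg : ∀ y, ((2 : ℂ) ^ m) • R0 y = ∑ ε : Fin m → Bool,
      ρ.hom (∑ i, sgn (ε i) • g i) (ysumL (fun l => coordZ p m l y) ε) := by
    intro y
    have h6 : ∀ ε : Fin m → Bool,
        ρ.hom (∑ i, sgn (ε i) • g i) (ysumL (fun l => coordZ p m l y) ε) =
        ∑ i, ∑ l, (sgn (ε i) * sgn (ε l)) • ρ.hom (g i) (coordZ p m l y) := by
      intro ε
      rw [map_sum, sum_apply]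
      refine Finset.sum_congr rfl fun i _ => ?_
      unfold ysumL
      rw [map_smul]
      change sgn (ε i) • ρ.hom (g i) (∑ l, sgn (ε l) • coordZ p m l y) = _
      rw [map_sum, Finset.smul_sum]
      refine Finset.sum_congr rfl fun l _ => ?_
      rw [map_smul, smul_smul]
    simp only [h6]
    rw [Finset.sum_comm, hRapp, Finset.smul_sum]
    refine Finset.sum_congr rfl fun i _ => ?_
    rw [Finset.sum_comm]
    simp only [← Finset.sum_smul, sum_sgn_mul, Fintype.card_fin]
    rw [Finset.sum_eq_single i]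
    · rw [if_pos rfl]
    · intro l _ hl
      rw [if_neg (Ne.symm hl), zero_smul]
    · simp
  have hRle : ∀ y, ‖R0 y‖ ≤ (B * C * S) * ‖y‖ := by
    intro y
    have h7 : ‖R0 y‖ ≤ C * S * signAvg (fun ε => ‖ysumL (fun l => coordZ p m l y) ε‖) := by
      have h8 : (2 : ℝ) ^ m * ‖R0 y‖ ≤
          ∑ ε : Fin m → Bool, C * S * ‖ysumL (fun l => coordZ p m l y) ε‖ := by
        calc (2 : ℝ) ^ m * ‖R0 y‖ = ‖((2 : ℂ) ^ m) • R0 y‖ := by
              rw [norm_smul, norm_pow]
              norm_num
          _ = ‖∑ ε : Fin m → Bool, ρ.hom (∑ i, sgn (ε i) • g i)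
                (ysumL (fun l => coordZ p m l y) ε)‖ := by rw [hRavg]
          _ ≤ ∑ ε : Fin m → Bool, ‖ρ.hom (∑ i, sgn (ε i) • g i)
                (ysumL (fun l => coordZ p m l y) ε)‖ := norm_sum_le _ _
          _ ≤ _ := Finset.sum_le_sum fun ε _ => hop ε _
      rw [← Finset.mul_sum] at h8
      unfold signAvg
      rw [Fintype.card_fin, mul_div_assoc', le_div_iff₀ (by positivity), mul_comm]
      exact h8
    have h9 : signAvg (fun ε => ‖ysumL (fun l => coordZ p m l y) ε‖) ≤ B * ‖y‖ := by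
      have h10 := Pool.Agent.H32.BDFP.signAvg_jensen
        (fun ε => ‖ysumL (fun l => coordZ p m l y) ε‖) (fun _ => norm_nonneg _) p.toReal
        (by linarith)
      have h11 : signAvg (fun ε => ‖ysumL (fun l => coordZ p m l y) ε‖ ^ p.toReal) ≤
          (B * ‖y‖) ^ p.toReal := by
        rw [← (hasSum_signAvg' hp0 (ysumL (fun l => coordZ p m l y))).tsum_eq,
          Real.mul_rpow hB0 (norm_nonneg _), lp.norm_rpow_eq_tsum hp0, ← tsum_mul_left]
        refine (hasSum_signAvg' hp0 (ysumL (fun l => coordZ p m l y))).summable.tsum_le_tsum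
          (fun n => ?_) (((lp.memℓp y).summable hp0).mul_left _)
        rw [euc_rpow]
        exact hup (fun l => coordZ p m l y) n
      refine (Real.rpow_le_rpow_iff ?_ (by positivity) hp0).1 (h10.trans h11)
      unfold signAvg
      positivity
    calc ‖R0 y‖ ≤ C * S * signAvg (fun ε => ‖ysumL (fun l => coordZ p m l y) ε‖) := h7
      _ ≤ C * S * (B * ‖y‖) := mul_le_mul_of_nonneg_left h9 (by positivity)
      _ = (B * C * S) * ‖y‖ := by ring
  refine ⟨J0.mkContinuous (C * S) hJle, R0.mkContinuous (B * C * S) hRle, ?_, ?_, ?_, ?_⟩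
  · refine (J0.mkContinuous_norm_le (by positivity) hJle).trans ?_
    calc C * S = 1 * (C * S) := (one_mul _).symm
      _ ≤ B * (C * S) := mul_le_mul_of_nonneg_right hB1 (by positivity)
      _ = B * C * S := by ring
  · exact R0.mkContinuous_norm_le (by positivity) hRle
  · exact hJapp
  · intro n i c
    change R0 (lp.single p n (EuclideanSpace.single i c)) = _
    rw [hRapp, Finset.sum_eq_single i]
    · congr 1
      refine lp.ext (funext fun k => ?_)
      rw [coordZ_apply]
      by_cases hk : k = n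
      · subst hk
        rw [lp.single_apply_self, lp.single_apply_self]
        simp
      · rw [lp.single_apply_ne _ _ _ hk, lp.single_apply_ne _ _ _ hk]
        rfl
    · intro l _ hl
      have h12 : coordZ p m l (lp.single p n (EuclideanSpace.single i c)) = 0 := by
        refine lp.ext (funext fun k => ?_)
        rw [coordZ_apply]
        by_cases hk : k = n
        · subst hk
          rw [lp.single_apply_self]
          simp [hl]
        · rw [lp.single_apply_ne _ _ _ hk]
          rfl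
      rw [h12, map_zero]
    · simp

end Pool.Agent.H80.BDFP
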